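import Pool.Agent.Lib.MP_021685_agP.PDg
import Pool.Agent.Lib.MP_021685_agP.PDh

/-!
# One class on `A ^ 4`: definitions
-/

set_option autoImplicit false

open Pool.Agent.Lib.MP_802513_ag Pool.Agent.Lib.MP_021685_agS Pool.Agent.Lib.MP_021685_agP
open scoped TensorProduct

namespace Pool.Agent.Lib.MP_021685_agQ

/-- The Hodge classes of degree `i` on `A ^ n`, `A = V / L`. -/
def hodgeC {V : Type*} [AddCommGroup V] [Module ℂ V] (L : AddSubgroup V) (n i : ℕ) :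
    Submodule ℚ ((Fin n → V) [⋀^Fin (2 * i)]→ₗ[ℝ] ℝ) where
  carrier := {η | IsHodgeClass (powLattice L n) i η}
  add_mem' := by
    rintro η ω ⟨h1, h2⟩ ⟨h1', h2'⟩
    refine ⟨fun v hv => ?_, fun z v => ?_⟩
    · obtain ⟨q, hq⟩ := h1 v hv
      obtain ⟨q', hq'⟩ := h1' v hv
      exact ⟨q + q', by rw [AlternatingMap.add_apply, hq, hq', Rat.cast_add]⟩
    · rw [AlternatingMap.add_apply, AlternatingMap.add_apply, h2, h2', mul_add]
  zero_mem' := by
    refine ⟨fun v hv => ⟨0, by simp⟩, fun z v => by simp⟩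
  smul_mem' := by
    rintro r η ⟨h1, h2⟩
    refine ⟨fun v hv => ?_, fun z v => ?_⟩
    · obtain ⟨q, hq⟩ := h1 v hv
      refine ⟨r * q, ?_⟩
      rw [AlternatingMap.smul_apply, hq, Rat.smul_def, Rat.cast_mul]
    · rw [AlternatingMap.smul_apply, AlternatingMap.smul_apply, h2, Rat.smul_def, Rat.smul_def]
      ring

/-- For `A = V / L`, `H = ℂ ⊗ L`, the space `γ` of endomorphisms of `H` and the function
`c : γ → ℂ` satisfy (for `A` defined over a number field: `γ` is the Lie algebra of the image of the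
Galois group in `GL (T_ℓ A)`, over `ℂ ⊇ ℚ_ℓ`, and `c` is its cyclotomic character):

* `lie`: `γ` is closed under brackets;
* `divisor`: the divisor classes on `A ^ 2` are Tate classes;
* `tate`: the Tate classes of degree one on `A ^ 2` are combinations of divisor classes (Faltings);
* `semisimple`: every subspace of `End H` stable under the brackets with the elements of `γ` has
  such a complement (Faltings);
* `sen`: for every automorphism `τ` of `ℂ` there is an idempotent `h ∈ γ` with `c h = 1` and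
  `tr (h T') = τ (tr T)` for all the endomorphisms `T` of `A` (up to isogeny), `T'` the extension of
  `T` to `H` (the derivative of a Hodge-Tate cocharacter, Tate, Raynaud, Sen). -/
structure IsGaloisLie {V : Type*} [AddCommGroup V] [Module ℂ V] (L : AddSubgroup V)
    (γ : Submodule ℂ (Module.End ℂ (ℂ ⊗[ℤ] L))) (c : Module.End ℂ (ℂ ⊗[ℤ] L) → ℂ) : Prop where
  lie : ∀ X ∈ γ, ∀ Y ∈ γ, X * Y - Y * X ∈ γ
  divisor : ∀ θ : (Fin 2 → ℂ ⊗[ℤ] L) [⋀^Fin (2 * 1)]→ₗ[ℂ] ℂ, θ ∈ extF ℂ (hodgeC L) 2 1 →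
    IsTate γ c 2 1 θ
  tate : TateHolds (hodgeC L) γ c 2 1
  semisimple : ∀ W : Submodule ℂ (Module.End ℂ (ℂ ⊗[ℤ] L)),
    (∀ X ∈ γ, ∀ A ∈ W, X * A - A * X ∈ W) →
    ∃ W' : Submodule ℂ (Module.End ℂ (ℂ ⊗[ℤ] L)), (∀ X ∈ γ, ∀ A ∈ W', X * A - A * X ∈ W') ∧
      IsCompl W W'
  sen : ∀ τ : ℂ ≃+* ℂ, ∃ h ∈ γ, h * h = h ∧ c h = 1 ∧ ∀ T ∈ EndAlg L,
    ∀ T' : Module.End ℂ (ℂ ⊗[ℤ] L), EndExt T T' →
      LinearMap.trace ℂ _ (h * T') = τ (LinearMap.trace ℂ V T)

/-- The linear map `P` is a projection of `End H` to `γ + ℂ` which commutes with the brackets with the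
elements of `γ`. -/
structure IsProjTo {H : Type*} [AddCommGroup H] [Module ℂ H] (γ : Submodule ℂ (Module.End ℂ H))
    (P : Module.End ℂ H →ₗ[ℂ] Module.End ℂ H) : Prop where
  mem : ∀ E, ∃ a : ℂ, P E + a • (1 : Module.End ℂ H) ∈ γ
  id : ∀ E ∈ γ, P E = E
  one : P 1 = 1
  br : ∀ Y ∈ γ, ∀ E, P (Y * E - E * Y) = Y * P E - P E * Y

/-- The form `θ` of degree four on `H ^ 4` has the Künneth component
`ψ (P (u₁ ⊗ u₂) u₃, u₄)`, where `u₁ ⊗ u₂` is the endomorphism `w ↦ ψ (u₂, w) u₁`: it is the class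
of `P`. -/
def IsClassOf {H : Type*} [AddCommGroup H] [Module ℂ H] (ψ : H →ₗ[ℂ] H →ₗ[ℂ] ℂ)
    (P : Module.End ℂ H →ₗ[ℂ] Module.End ℂ H) (θ : (Fin 4 → H) [⋀^Fin (2 * 2)]→ₗ[ℂ] ℂ) : Prop :=
  ∀ u : Fin 4 → H, θ (fun r => Pi.single r (u r)) =
    ψ (P ((ψ (u 1)).smulRight (u 0)) (u 2)) (u 3)

end Pool.Agent.Lib.MP_021685_agQ
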