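import Pool.Agent.Lib.MP_021685_agQ.QA

/-!
# From multilinear forms on `H` to alternating forms on a power of `H`
-/

set_option autoImplicit false

namespace Pool.Agent.Lib.MP_021685_agQ

open Module

variable {k H : Type*} [Field k] [AddCommGroup H] [Module k H]

/-- The alternating form on `H ^ s` attached to the multilinear form `T` on `H`. -/
noncomputable def altF {s : ℕ} (T : MultilinearMap k (fun _ : Fin s => H) k) :
    (Fin s → H) [⋀^Fin s]→ₗ[k] k :=
  MultilinearMap.alternatization (T.compLinearMap fun j => LinearMap.proj (φ := fun _ => H) j)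

theorem altF_apply {s : ℕ} (T : MultilinearMap k (fun _ : Fin s => H) k) (v : Fin s → Fin s → H) :
    altF T v = ∑ σ : Equiv.Perm (Fin s), (Equiv.Perm.sign σ : ℤ) • T (fun j => v (σ j) j) := by
  rw [altF, MultilinearMap.alternatization_apply]
  refine Finset.sum_congr rfl fun σ _ => ?_
  rw [MultilinearMap.domDomCongr_apply, MultilinearMap.compLinearMap_apply]
  rfl

theorem sum_altF {s : ℕ} (T : MultilinearMap k (fun _ : Fin s => H) k) (X : Module.End k H)
    (v : Fin s → Fin s → H) :
    ∑ r, altF T (Function.update v r (fun m => X (v r m))) =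
      ∑ σ : Equiv.Perm (Fin s), (Equiv.Perm.sign σ : ℤ) •
        ∑ j, T (Function.update (fun j => v (σ j) j) j (X (v (σ j) j))) := by
  simp only [altF_apply]
  rw [Finset.sum_comm]
  refine Finset.sum_congr rfl fun σ _ => ?_
  rw [← Finset.smul_sum, ← Equiv.sum_comp σ]
  congr 1
  refine Finset.sum_congr rfl fun j _ => ?_
  congr 1
  funext m
  by_cases h : m = j
  · subst h
    rw [Function.update_self, Function.update_self]
  · rw [Function.update_of_ne h, Function.update_of_ne (fun e => h (σ.injective e))]

theorem acts_altF {s : ℕ} {T : MultilinearMap k (fun _ : Fin s => H) k} {X : Module.End k H} {t : k}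
    (h : ∀ v : Fin s → H, ∑ j, T (Function.update v j (X (v j))) = t * T v)
    (v : Fin s → Fin s → H) :
    ∑ r, altF T (Function.update v r (fun m => X (v r m))) = t * altF T v := by
  rw [sum_altF, altF_apply, Finset.mul_sum]
  refine Finset.sum_congr rfl fun σ _ => ?_
  rw [h, mul_smul_comm]

theorem altF_single {s : ℕ} (T : MultilinearMap k (fun _ : Fin s => H) k) (u : Fin s → H) :
    altF T (fun r => Pi.single r (u r)) = T u := by
  classical
  rw [altF_apply, Finset.sum_eq_single (1 : Equiv.Perm (Fin s))]
  · simp
  · intro σ _ hσ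
    obtain ⟨j, hj⟩ : ∃ j, σ j ≠ j := by
      by_contra hc
      push Not at hc
      exact hσ (Equiv.ext hc)
    have h1 : T (fun m => (Pi.single (σ m) (u (σ m)) : Fin s → H) m) = 0 :=
      T.map_coord_zero j (by rw [Pi.single_eq_of_ne (Ne.symm hj)])
    rw [h1, smul_zero]
  · intro h
    exact absurd (Finset.mem_univ _) h

theorem acts_of_altF {s : ℕ} {T : MultilinearMap k (fun _ : Fin s => H) k} {X : Module.End k H}
    {t : k}
    (h : ∀ v : Fin s → Fin s → H,
      ∑ r, altF T (Function.update v r (fun m => X (v r m))) = t * altF T v)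
    (u : Fin s → H) : ∑ j, T (Function.update u j (X (u j))) = t * T u := by
  have h1 := h (fun r => Pi.single r (u r))
  rw [altF_single] at h1
  rw [← h1]
  refine Finset.sum_congr rfl fun j _ => ?_
  rw [← altF_single T (Function.update u j (X (u j)))]
  congr 1
  funext r m
  by_cases hr : r = j
  · subst hr
    rw [Function.update_self, Function.update_self]
    by_cases hm : m = r
    · subst hm
      simp
    · rw [Pi.single_eq_of_ne hm]
      simp [Pi.single_eq_of_ne hm]
  · rw [Function.update_of_ne hr, Function.update_of_ne hr]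

end Pool.Agent.Lib.MP_021685_agQ
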