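import Pool.Agent.Lib.MP_021685_agP.PG
import Pool.Agent.Lib.MP_021685_agP.PDg
import Pool.Agent.Lib.MP_021685_agQ.Df
import Pool.Agent.Lib.MP_021685_agQ.QB

/-!
# The Hodge classes; the form of the polarisation on `H = ℂ ⊗ L`
-/

set_option autoImplicit false
set_option linter.unusedSectionVars false

namespace Pool.Agent.Lib.MP_021685_agQ

open Matrix Function Module MP_802513_ag MP_802513_agH MP_802513_agU MP_802513_agS MP_021685_agS
  MP_021685_agP
open scoped TensorProduct

section General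

variable {H : Type*} [AddCommGroup H] [Module ℂ H] {k : ℕ} (e : Basis (Fin k) ℂ H)

/-- The bilinear form with the matrix `M`. -/
noncomputable def bil (M : Matrix (Fin k) (Fin k) ℂ) : H →ₗ[ℂ] H →ₗ[ℂ] ℂ :=
  Matrix.toLinearMap₂ e e M

theorem bil_basis (M : Matrix (Fin k) (Fin k) ℂ) (i j : Fin k) : bil e M (e i) (e j) = M i j := by
  have h := LinearMap.toMatrix₂_toLinearMap₂ e e M
  have h2 := congrFun (congrFun h i) j
  rw [LinearMap.toMatrix₂_apply] at h2
  exact h2

theorem bil_nondegenerate {M : Matrix (Fin k) (Fin k) ℂ} (hM : IsUnit M.det) :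
    (bil e M).Nondegenerate := by
  unfold bil
  refine LinearMap.nondegenerate_of_det_ne_zero e ?_
  rw [LinearMap.toMatrix₂_toLinearMap₂]
  exact hM.ne_zero

theorem bil_mult (M : Matrix (Fin k) (Fin k) ℂ) (X : Module.End ℂ H) (a : ℂ) :
    (∀ u v, bil e M (X u) v + bil e M u (X v) = a * bil e M u v) ↔
      (LinearMap.toMatrix e e X)ᵀ * M + M * LinearMap.toMatrix e e X = a • M := by
  have h1 : ∀ i, X (e i) = ∑ l, LinearMap.toMatrix e e X l i • e l := by
    intro i
    conv_lhs => rw [← e.sum_repr (X (e i))]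
    refine Finset.sum_congr rfl fun l _ => ?_
    rw [LinearMap.toMatrix_apply]
  have key : ∀ i j, bil e M (X (e i)) (e j) + bil e M (e i) (X (e j)) =
      ((LinearMap.toMatrix e e X)ᵀ * M + M * LinearMap.toMatrix e e X) i j := by
    intro i j
    rw [h1, h1, Matrix.add_apply, Matrix.mul_apply, Matrix.mul_apply]
    simp only [map_sum, LinearMap.sum_apply, map_smul, LinearMap.smul_apply, smul_eq_mul, bil_basis,
      Matrix.transpose_apply]
    congr 1
    refine Finset.sum_congr rfl fun l _ => mul_comm _ _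
  constructor
  · intro h
    ext i j
    rw [← key, h, bil_basis, Matrix.smul_apply, smul_eq_mul]
  · intro h u v
    have h2 : (bil e M).comp X + (bil e M).compl₂ X = a • bil e M := by
      refine LinearMap.ext_basis e e fun i j => ?_
      have h3 := key i j
      rw [h, Matrix.smul_apply] at h3
      rw [LinearMap.smul_apply, LinearMap.smul_apply, bil_basis]
      exact h3
    have h3 := congrArg (fun F : H →ₗ[ℂ] H →ₗ[ℂ] ℂ => F u v) h2
    simpa using h3

end General

variable {V : Type*} [AddCommGroup V] [Module ℂ V] {L : AddSubgroup V}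

theorem mem_hodgeC {n i : ℕ} {η : (Fin n → V) [⋀^Fin (2 * i)]→ₗ[ℝ] ℝ} :
    η ∈ hodgeC L n i ↔ IsHodgeClass (powLattice L n) i η := Iff.rfl

theorem DX_lift {n s k : ℕ} (X : Matrix (Fin k) (Fin k) ℂ) (T : (Fin s → Fin n × Fin k) → ℂ)
    (j : Fin s → Fin n × Fin k) : DX X T j = DM (lift (Fin n) X) T j := by
  unfold DX DM
  refine Finset.sum_congr rfl fun a _ => ?_
  rw [Fintype.sum_prod_type, Finset.sum_eq_single (j a).1]
  · refine Finset.sum_congr rfl fun m _ => ?_
    simp only [lift, Matrix.of_apply, if_true]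
  · intro c _ hc
    refine Finset.sum_eq_zero fun m _ => ?_
    simp only [lift, Matrix.of_apply]
    rw [if_neg hc, mul_zero]
  · intro h
    exact absurd (Finset.mem_univ _) h

variable {g : ℕ} {b : Basis (Fin (2 * g)) ℝ V} {e : Basis (Fin (2 * g)) ℂ (ℂ ⊗[ℤ] L)}
  {D : PData (Fin (2 * g))}

/-- An element of the Lie algebra of the Hodge group kills the Hodge classes. -/
theorem lie_ext (hb : ∀ w, w ∈ L ↔ ∀ l, ∃ n : ℤ, b.repr w l = n)
    (he : ∀ (l : Fin (2 * g)) (h : b l ∈ L), e l = 1 ⊗ₜ[ℤ] (⟨b l, h⟩ : L)) (hJ : D.J = rc (Jr b))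
    {X : Module.End ℂ (ℂ ⊗[ℤ] L)} (hX : LinearMap.toMatrix e e X ∈ D.lie) :
    ActsBy (hodgeC L) X 0 := by
  intro n i θ hθ
  refine Submodule.span_induction (p := fun (θ : (Fin n → ℂ ⊗[ℤ] L) [⋀^Fin (2 * i)]→ₗ[ℂ] ℂ) _ =>
    ∀ v : Fin (2 * i) → Fin n → ℂ ⊗[ℤ] L,
      ∑ s, θ (Function.update v s (fun m => X (v s m))) = (i : ℂ) * 0 * θ v) ?_ ?_ ?_ ?_ hθ
  · rintro θ ⟨η, hη, hex⟩
    obtain ⟨T, hT⟩ := exists_tensor b hb hη
    have hT1 : HasCoord b η T := hT
    have h1 := (extends_iff hb he hT1).1 hex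
    refine (h1.der_iff X ((i : ℂ) * 0)).2 ?_
    have h2 := hX (2 * i) n T (fun j => by rw [hJ]; exact tensor_killed b hη hT j)
    funext j
    rw [← DX_lift, h2 j]
    simp
  · intro v
    simp
  · intro x y _ _ hx hy v
    simp only [AlternatingMap.add_apply, Finset.sum_add_distrib, hx v, hy v]
    ring
  · intro t x _ hx v
    simp only [AlternatingMap.smul_apply, smul_eq_mul, ← Finset.mul_sum, hx v]
    ring

end Pool.Agent.Lib.MP_021685_agQ
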