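import Pool.Agent.Lib.MP_021685_agQ.QE

/-!
# From the Mumford-Tate conjecture to the Tate classes on all the powers
-/

set_option autoImplicit false
set_option linter.unusedSectionVars false

namespace Pool.Agent.Lib.MP_021685_agQ

open Matrix Function Module MP_802513_ag MP_802513_agH MP_802513_agU MP_802513_agS MP_021685_agS
  MP_021685_agP
open scoped TensorProduct

/-- The coordinates of the forms on `H ^ n`. -/
noncomputable def coordL {H : Type*} [AddCommGroup H] [Module ℂ H] {k : ℕ} (e : Basis (Fin k) ℂ H) (n s : ℕ) :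
    ((Fin n → H) [⋀^Fin s]→ₗ[ℂ] ℂ) →ₗ[ℂ] ((Fin s → Fin n × Fin k) → ℂ) where
  toFun θ := fun j => θ (fun a => Pi.single (j a).1 (e (j a).2))
  map_add' _ _ := rfl
  map_smul' _ _ := rfl

theorem coordL_hasC {H : Type*} [AddCommGroup H] [Module ℂ H] {k : ℕ} (e : Basis (Fin k) ℂ H)
    {n s : ℕ} (θ : (Fin n → H) [⋀^Fin s]→ₗ[ℂ] ℂ) : HasC e θ (coordL e n s θ) := fun _ => rfl

theorem lift_map' {k n : ℕ} (σ : ℂ →+* ℂ) (X : Matrix (Fin k) (Fin k) ℂ) :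
    (lift (Fin n) X).map σ = lift (Fin n) (X.map σ) := by
  ext p q
  simp only [lift, Matrix.map_apply, Matrix.of_apply]
  split_ifs
  · rfl
  · exact map_zero σ

variable {V : Type*} [AddCommGroup V] [Module ℂ V] {L : AddSubgroup V}
  {g : ℕ} {b : Basis (Fin (2 * g)) ℝ V} {e : Basis (Fin (2 * g)) ℂ (ℂ ⊗[ℤ] L)}
  {D : PData (Fin (2 * g))}
  {γ : Submodule ℂ (Module.End ℂ (ℂ ⊗[ℤ] L))} {c : Module.End ℂ (ℂ ⊗[ℤ] L) → ℂ}

/-- The alternating tensors killed by the Lie algebra of the Hodge group. -/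
def killedAlt (D : PData (Fin (2 * g))) (n s : ℕ) :
    Submodule ℂ ((Fin s → Fin n × Fin (2 * g)) → ℂ) where
  carrier := {T | IsAlt T ∧ ∀ X ∈ D.lie, DM (lift (Fin n) X) T = 0}
  add_mem' := by
    rintro T U ⟨h1, h2⟩ ⟨h1', h2'⟩
    refine ⟨fun σ j => ?_, fun X hX => by rw [DM_add, h2 X hX, h2' X hX, add_zero]⟩
    rw [Pi.add_apply, Pi.add_apply, h1, h1', smul_add]
  zero_mem' := by
    refine ⟨fun σ j => by simp, fun X _ => ?_⟩
    funext j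
    simp [DM]
  smul_mem' := by
    rintro r T ⟨h1, h2⟩
    refine ⟨fun σ j => ?_, fun X hX => by rw [DM_smul, h2 X hX, smul_zero]⟩
    rw [Pi.smul_apply, Pi.smul_apply, h1, smul_comm]

theorem killedAlt_aut {n s : ℕ} (σ : ℂ ≃+* ℂ) {T : (Fin s → Fin n × Fin (2 * g)) → ℂ}
    (hT : T ∈ killedAlt D n s) : (fun j => σ (T j)) ∈ killedAlt D n s := by
  obtain ⟨h1, h2⟩ := hT
  refine ⟨fun τ j => ?_, fun X hX => ?_⟩
  · beta_reduce
    rw [h1, zsmul_eq_mul, zsmul_eq_mul, map_mul, map_intCast]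
  · have h3 := h2 _ (PData.lie_map (σ.symm : ℂ →+* ℂ) hX)
    have h4 : (lift (Fin n) (X.map (σ.symm : ℂ →+* ℂ))).map (σ : ℂ →+* ℂ) = lift (Fin n) X := by
      rw [lift_map']
      congr 1
      ext a b
      simp
    funext j
    have h5 := DM_map (σ : ℂ →+* ℂ) (lift (Fin n) (X.map (σ.symm : ℂ →+* ℂ))) T j
    rw [h3, h4] at h5
    exact Eq.trans h5 (map_zero _)

/-- The forms killed by the Lie algebra of the Hodge group are combinations of Hodge classes. -/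
theorem mem_ext_of_killed (hb : ∀ w, w ∈ L ↔ ∀ l, ∃ n : ℤ, b.repr w l = n)
    (he : ∀ (l : Fin (2 * g)) (h : b l ∈ L), e l = 1 ⊗ₜ[ℤ] (⟨b l, h⟩ : L)) (hJ : D.J = rc (Jr b))
    {n i : ℕ} {θ : (Fin n → ℂ ⊗[ℤ] L) [⋀^Fin (2 * i)]→ₗ[ℂ] ℂ}
    (h : ∀ X ∈ D.lie, DM (lift (Fin n) X) (coordL e n (2 * i) θ) = 0) :
    θ ∈ extF ℂ (hodgeC L) n i := by
  have h0 : coordL e n (2 * i) θ ∈ killedAlt D n (2 * i) := ⟨(coordL_hasC e θ).isAlt, h⟩
  have h1 := le_span_rational (killedAlt D n (2 * i)) (fun σ w hw => killedAlt_aut σ hw) h0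
  have h2 : coordL e n (2 * i) θ ∈ (extF ℂ (hodgeC L) n i).map (coordL e n (2 * i)) := by
    refine (Submodule.span_le.2 ?_) h1
    rintro w ⟨⟨hw1, hw2⟩, q, hq⟩
    have hw : w = fun j => ((q j : ℚ) : ℂ) := funext hq
    have hqa : IsAlt q := by
      intro σ j
      have h3 := hw1 σ j
      rw [hq, hq, zsmul_eq_mul] at h3
      rw [zsmul_eq_mul]
      exact_mod_cast h3
    obtain ⟨η, hη, -⟩ := exists_form' (b := b) hqa
    have hH : IsHodgeClass (powLattice L n) i η := by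
      refine HasCoord.hodge hb (i := i) hη fun j => ?_
      have h3 := congrFun (hw2 _ PData.J_mem) j
      rw [hw, ← DX_lift, hJ] at h3
      exact h3
    obtain ⟨θ', hθ'⟩ := exists_extension (F := ℂ) hb he hη
    refine ⟨θ', Submodule.subset_span ⟨η, hH, hθ'⟩, ?_⟩
    rw [hw]
    exact (coordL_hasC e θ').unique ((extends_iff hb he hη).1 hθ')
  obtain ⟨θ', hθ', h3⟩ := h2
  have h4 := coordL_hasC e θ'
  rw [h3] at h4
  rw [(coordL_hasC e θ).ext h4]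
  exact hθ'

/-- If all the Hodge classes are Tate classes and the Lie algebra of the Mumford-Tate group is
contained in `γ + ℂ`, then all the Tate classes on all the powers are combinations of Hodge classes. -/
theorem all_of_mt (hb : ∀ w, w ∈ L ↔ ∀ l, ∃ n : ℤ, b.repr w l = n)
    (he : ∀ (l : Fin (2 * g)) (h : b l ∈ L), e l = 1 ⊗ₜ[ℤ] (⟨b l, h⟩ : L)) (hJ : D.J = rc (Jr b))
    (hT : ∀ θ : (Fin 2 → ℂ ⊗[ℤ] L) [⋀^Fin (2 * 1)]→ₗ[ℂ] ℂ, θ ∈ extF ℂ (hodgeC L) 2 1 →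
      IsTate γ c 2 1 θ)
    (hmt : ∀ X : Module.End ℂ (ℂ ⊗[ℤ] L), ActsBy (hodgeC L) X 0 →
      ∃ Y ∈ γ, ∃ s : ℂ, X = Y + s • (1 : Module.End ℂ (ℂ ⊗[ℤ] L))) (n i : ℕ) :
    TateHolds (hodgeC L) γ c n i := by
  intro θ hθ
  refine mem_ext_of_killed hb he hJ fun X hX => ?_
  have hX' : LinearMap.toMatrix e e (Matrix.toLin e e X) ∈ D.lie := by
    rw [LinearMap.toMatrix_toLin]
    exact hX
  have h4 := lie_ext hb he hJ hX'
  obtain ⟨Y, hY, s, hYs⟩ := hmt _ h4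
  have hat : ActsAt (hodgeC L) Y (c Y) 2 1 := fun θ hθ v => hT θ hθ Y hY v
  have h5 : ∀ u v, (c Y + 2 * s) * bil e D.Gc u v = 0 := by
    intro u v
    have e1 := mult_of_at (e := e) hb he hJ (h4 2 1) u v
    have e2 := mult_of_at (e := e) hb he hJ hat u v
    rw [hYs] at e1
    simp only [LinearMap.add_apply, LinearMap.smul_apply, map_add, map_smul, smul_eq_mul,
      Module.End.one_apply] at e1
    linear_combination e1 - e2
  have h6 : ∀ v : Fin (2 * i) → Fin n → ℂ ⊗[ℤ] L,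
      ∑ a, θ (Function.update v a (fun m => Matrix.toLin e e X (v a m))) = 0 * θ v := by
    intro v
    have h7 : ∑ a, θ (Function.update v a (fun m => Matrix.toLin e e X (v a m))) =
        ∑ a, (θ (Function.update v a (fun m => Y (v a m))) + s * θ v) := by
      refine Finset.sum_congr rfl fun a _ => ?_
      have h8 : (fun m => Matrix.toLin e e X (v a m)) = (fun m => Y (v a m)) + s • v a := by
        funext m
        rw [hYs]
        rfl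
      rw [h8, θ.map_update_add, θ.map_update_smul, Function.update_eq_self, smul_eq_mul]
    rw [h7, Finset.sum_add_distrib, Finset.sum_const, Finset.card_univ, Fintype.card_fin,
      nsmul_eq_mul, hθ Y hY v]
    by_cases h8 : c Y + 2 * s = 0
    · push_cast
      linear_combination (i : ℂ) * θ v * h8
    · have h9 : ∀ u v, bil e D.Gc u v = 0 := fun u v =>
        (mul_eq_zero.1 (h5 u v)).resolve_left h8
      have h10 : ∀ u : ℂ ⊗[ℤ] L, u = 0 := fun u => (bil_nd (e := e) (D := D)).1 u (h9 u)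
      rcases Nat.eq_zero_or_pos i with hi | hi
      · subst hi
        simp
      · have h11 : θ v = 0 := by
          refine θ.map_coord_zero (⟨0, by omega⟩ : Fin (2 * i)) ?_
          funext m
          exact h10 _
        rw [h11]
        ring
  have h12 := ((coordL_hasC e θ).der_iff (Matrix.toLin e e X) 0).1 h6
  rw [LinearMap.toMatrix_toLin, zero_smul] at h12
  exact h12

/-- The bilinear extension of the Riemann form, in coordinates. -/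
theorem bil_eq (hb : ∀ w, w ∈ L ↔ ∀ l, ∃ n : ℤ, b.repr w l = n)
    (he : ∀ (l : Fin (2 * g)) (h : b l ∈ L), e l = 1 ⊗ₜ[ℤ] (⟨b l, h⟩ : L))
    {B : V →ₗ[ℝ] V →ₗ[ℝ] ℝ} (hG : D.Gc = rc (gram b B))
    {ψ : (ℂ ⊗[ℤ] L) →ₗ[ℂ] (ℂ ⊗[ℤ] L) →ₗ[ℂ] ℂ}
    (hψ : ∀ l l' : L, ψ (1 ⊗ₜ[ℤ] l) (1 ⊗ₜ[ℤ] l') = (B l l' : ℂ)) : bil e D.Gc = ψ := by
  have hm : ∀ l, b l ∈ L := by
    intro l
    rw [hb]
    intro l'
    rw [Basis.repr_self, Finsupp.single_apply]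
    by_cases h : l = l'
    · exact ⟨1, by rw [if_pos h, Int.cast_one]⟩
    · exact ⟨0, by rw [if_neg h, Int.cast_zero]⟩
  refine LinearMap.ext_basis e e fun i j => ?_
  rw [bil_basis, he i (hm i), he j (hm j), hψ, hG]
  rfl

/-- **Main theorem** (totally real centre), with one class: if the form of an equivariant projection
to `γ` is a combination of Hodge classes of degree two on `A ^ 4`, then all the Tate classes on all the
powers of `A` are combinations of Hodge classes, and the Mumford-Tate conjecture holds for `A`. -/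
theorem main1 {B : V →ₗ[ℝ] V →ₗ[ℝ] ℝ} (hA : IsAbelianVariety L) (hB : IsRiemannForm L B)
    (hcen : ∀ T ∈ EndAlg L, (∀ S ∈ EndAlg L, S * T = T * S) → ∀ x y, B (T x) y = B x (T y))
    {ψ : (ℂ ⊗[ℤ] L) →ₗ[ℂ] (ℂ ⊗[ℤ] L) →ₗ[ℂ] ℂ}
    (hψ : ∀ l l' : L, ψ (1 ⊗ₜ[ℤ] l) (1 ⊗ₜ[ℤ] l') = (B l l' : ℂ))
    (hlie : ∀ X ∈ γ, ∀ Y ∈ γ, X * Y - Y * X ∈ γ)
    (hT : ∀ θ : (Fin 2 → ℂ ⊗[ℤ] L) [⋀^Fin (2 * 1)]→ₗ[ℂ] ℂ, θ ∈ extF ℂ (hodgeC L) 2 1 →
      IsTate γ c 2 1 θ)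
    {P : Module.End ℂ (ℂ ⊗[ℤ] L) →ₗ[ℂ] Module.End ℂ (ℂ ⊗[ℤ] L)} (hPg : ∀ E, P E ∈ γ)
    (hP1 : ∀ E ∈ γ, P E = E) (hPc : ∀ Y ∈ γ, ∀ E, P (Y * E - E * Y) = Y * P E - P E * Y)
    (h2 : TateHolds (hodgeC L) γ c 2 1) (h4 : altF (form4 ψ P) ∈ extF ℂ (hodgeC L) 4 2) :
    (∀ n i, TateHolds (hodgeC L) γ c n i) ∧
    ∀ (X : Module.End ℂ (ℂ ⊗[ℤ] L)) (a : ℂ), ActsAt (hodgeC L) X a 2 1 →
      ActsAt (hodgeC L) X a 4 2 → ∃ Y ∈ γ, ∃ s : ℂ, X = Y + s • (1 : Module.End ℂ (ℂ ⊗[ℤ] L)) := by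
  obtain ⟨g, b, hL, hb⟩ := exists_basis hA.lattice
  obtain ⟨D, hJ, hG⟩ := exists_pdata b hb hB
  obtain ⟨e, he⟩ := exists_latBasis ℂ hb
  have hre : ∀ N ∈ RQ D, (∀ N' ∈ RQ D, N * N' = N' * N) → Nᵀ * D.G = D.G * N :=
    fun N hN hc => center_re hb hJ hG hcen hN hc
  rw [← bil_eq hb he hG hψ] at h4
  have key : ∀ (X : Module.End ℂ (ℂ ⊗[ℤ] L)) (a : ℂ), ActsAt (hodgeC L) X a 2 1 →
      ActsAt (hodgeC L) X a 4 2 → ∃ Y ∈ γ, ∃ s : ℂ, X = Y + s • (1 : Module.End ℂ (ℂ ⊗[ℤ] L)) := by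
    intro X a hX2 hX4
    obtain ⟨Y, hY, Z, hXYZ, -, hZ1, hZ2, hZ3⟩ := one_abelian hb he hJ hlie hT hPg hP1 hPc h2 hX2
      (actsOn_of_at (i := 2) hX4 h4)
    refine ⟨Y, hY, (a - c Y) / 2, ?_⟩
    rw [← scalar_of_real hre hZ1 hZ2 hZ3]
    exact hXYZ
  exact ⟨all_of_mt hb he hJ hT fun X hX => key X 0 (hX 2 1) (hX 4 2), key⟩

/-- **Main theorem** (totally real centre): if the Tate classes of degree two on `A ^ 4` are
combinations of Hodge classes, then so are all the Tate classes on all the powers of `A`, and the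
Mumford-Tate conjecture holds for `A`. -/
theorem main4 {B : V →ₗ[ℝ] V →ₗ[ℝ] ℝ} (hA : IsAbelianVariety L) (hB : IsRiemannForm L B)
    (hcen : ∀ T ∈ EndAlg L, (∀ S ∈ EndAlg L, S * T = T * S) → ∀ x y, B (T x) y = B x (T y))
    (hlie : ∀ X ∈ γ, ∀ Y ∈ γ, X * Y - Y * X ∈ γ)
    (hT : ∀ θ : (Fin 2 → ℂ ⊗[ℤ] L) [⋀^Fin (2 * 1)]→ₗ[ℂ] ℂ, θ ∈ extF ℂ (hodgeC L) 2 1 →
      IsTate γ c 2 1 θ)
    (hss : ∃ W : Submodule ℂ (Module.End ℂ (ℂ ⊗[ℤ] L)),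
      (∀ X ∈ γ, ∀ Y ∈ W, X * Y - Y * X ∈ W) ∧ IsCompl γ W)
    (h2 : TateHolds (hodgeC L) γ c 2 1) (h4 : TateHolds (hodgeC L) γ c 4 2) :
    (∀ n i, TateHolds (hodgeC L) γ c n i) ∧
    ∀ (X : Module.End ℂ (ℂ ⊗[ℤ] L)) (a : ℂ), ActsAt (hodgeC L) X a 2 1 →
      ActsAt (hodgeC L) X a 4 2 → ∃ Y ∈ γ, ∃ s : ℂ, X = Y + s • (1 : Module.End ℂ (ℂ ⊗[ℤ] L)) := by
  obtain ⟨g, b, hL, hb⟩ := exists_basis hA.lattice
  obtain ⟨D, hJ, hG⟩ := exists_pdata b hb hB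
  obtain ⟨e, he⟩ := exists_latBasis ℂ hb
  have : Module.Finite ℂ (ℂ ⊗[ℤ] L) := Module.Finite.of_basis e
  obtain ⟨P, hPg, hP1, hPc⟩ := exists_equivariant hlie hss
  have hre : ∀ N ∈ RQ D, (∀ N' ∈ RQ D, N * N' = N' * N) → Nᵀ * D.G = D.G * N :=
    fun N hN hc => center_re hb hJ hG hcen hN hc
  have hat : ∀ Y ∈ γ, ActsAt (hodgeC L) Y (c Y) 2 1 := fun Y hY θ hθ v => hT θ hθ Y hY v
  have hm : ∀ Y ∈ γ, ∀ u v, bil e D.Gc (Y u) v + bil e D.Gc u (Y v) = c Y * bil e D.Gc u v :=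
    fun Y hY => mult_of_at hb he hJ (hat Y hY)
  have h5 : altF (form4 (bil e D.Gc) P) ∈ extF ℂ (hodgeC L) 4 2 :=
    h4 _ ((isTate_altF (i := 2)).2 (tate_form4 bil_nd hm hPc))
  have key : ∀ (X : Module.End ℂ (ℂ ⊗[ℤ] L)) (a : ℂ), ActsAt (hodgeC L) X a 2 1 →
      ActsAt (hodgeC L) X a 4 2 → ∃ Y ∈ γ, ∃ s : ℂ, X = Y + s • (1 : Module.End ℂ (ℂ ⊗[ℤ] L)) := by
    intro X a hX2 hX4
    obtain ⟨Y, hY, Z, hXYZ, -, hZ1, hZ2, hZ3⟩ := one_abelian hb he hJ hlie hT hPg hP1 hPc h2 hX2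
      (actsOn_of_at (i := 2) hX4 h5)
    refine ⟨Y, hY, (a - c Y) / 2, ?_⟩
    rw [← scalar_of_real hre hZ1 hZ2 hZ3]
    exact hXYZ
  exact ⟨all_of_mt hb he hJ hT fun X hX => key X 0 (hX 2 1) (hX 4 2), key⟩

end Pool.Agent.Lib.MP_021685_agQ
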