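import Pool.Agent.Lib.MP_021685_agQ.Df
import Pool.Agent.Lib.MP_021685_agP.PDj

/-!
# One Tate class decides: definitions
-/

set_option autoImplicit false

open Pool.Agent.Lib.MP_802513_ag Pool.Agent.Lib.MP_802513_agS Pool.Agent.Lib.MP_021685_agS
  Pool.Agent.Lib.MP_021685_agP
open scoped TensorProduct

namespace Pool.Agent.Lib.MP_021685_agQ

variable {V : Type*} [AddCommGroup V] [Module ℂ V]

/-- The real alternating forms with `2 i` arguments on `V ^ n`. -/
abbrev RForm (V : Type*) [AddCommGroup V] [Module ℂ V] (n i : ℕ) : Type _ :=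
  (Fin n → V) [⋀^Fin (2 * i)]→ₗ[ℝ] ℝ

/-- The families of rational spaces of real alternating forms on the powers of `V`. -/
abbrev Family (V : Type*) [AddCommGroup V] [Module ℂ V] : Type _ :=
  ∀ n i : ℕ, Submodule ℚ (RForm V n i)

/-- The complex alternating forms with `2 i` arguments on `H ^ n`, `H = ℂ ⊗ L`. -/
abbrev CForm (L : AddSubgroup V) (n i : ℕ) : Type _ :=
  (Fin n → ℂ ⊗[ℤ] L) [⋀^Fin (2 * i)]→ₗ[ℂ] ℂ

/-- The endomorphisms of `H = ℂ ⊗ L`. -/
abbrev HEnd (L : AddSubgroup V) : Type _ := Module.End ℂ (ℂ ⊗[ℤ] L)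

/-- The spaces of endomorphisms of `H = ℂ ⊗ L`. -/
abbrev HSpace (L : AddSubgroup V) : Type _ := Submodule ℂ (HEnd L)

/-- The linear maps `End H → End H`, `H = ℂ ⊗ L`. -/
abbrev HMap (L : AddSubgroup V) : Type _ := HEnd L →ₗ[ℂ] HEnd L

/-- The complex bilinear form `ψ` on `H = ℂ ⊗ L` extends the Riemann form `B`. -/
def IsExtForm (L : AddSubgroup V) (B : V →ₗ[ℝ] V →ₗ[ℝ] ℝ)
    (ψ : (ℂ ⊗[ℤ] L) →ₗ[ℂ] (ℂ ⊗[ℤ] L) →ₗ[ℂ] ℂ) : Prop :=
  ∀ x y : L, ψ (1 ⊗ₜ[ℤ] x) (1 ⊗ₜ[ℤ] y) = (B x y : ℂ)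

/-- The real form `η` is in the family `C`. -/
def InFamily (C : Family V) {n i : ℕ} (η : RForm V n i) : Prop := η ∈ C n i

/-- The complex form `θ` is a complex combination of classes of the family `C`. -/
def IsComb {L : AddSubgroup V} (C : Family V) {n i : ℕ} (θ : CForm L n i) : Prop :=
  θ ∈ extF ℂ C n i

/-- The Tate classes of all degrees on all the powers of `A = V / L` are combinations of classes of
the family `C`. -/
def AllTate {L : AddSubgroup V} (C : Family V) (γ : HSpace L) (c : HEnd L → ℂ) : Prop :=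
  ∀ (n i : ℕ) (θ : CForm L n i), IsTate γ c n i θ → IsComb C θ

/-- The Tate classes of all degrees on all the powers of `A = V / L` which are killed by the elements
of `End A ⊗ ℚ` which are central, skew for `B` and of trace `0` on the tangent space `V` are
combinations of classes of the family `C`. -/
def AllTateKilled {L : AddSubgroup V} (B : V →ₗ[ℝ] V →ₗ[ℝ] ℝ) (C : Family V) (γ : HSpace L)
    (c : HEnd L → ℂ) : Prop :=
  ∀ (n i : ℕ) (θ : CForm L n i), IsTate γ c n i θ → KilledByDeg L B θ → IsComb C θ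

/-- The Rosati involution of `B` is the identity on the centre of `End A ⊗ ℚ`, `A = V / L` (there is
no factor of type IV). -/
def CentreSymmetric (L : AddSubgroup V) (B : V →ₗ[ℝ] V →ₗ[ℝ] ℝ) : Prop :=
  ∀ T ∈ EndAlg L, (∀ S ∈ EndAlg L, S * T = T * S) → ∀ x y, B (T x) y = B x (T y)

end Pool.Agent.Lib.MP_021685_agQ
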