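import Mathlib

/-!
# Forms of degree four determine a Lie algebra up to its centre

`H` is a finite-dimensional space with a non-degenerate bilinear form `ψ`, `g` a Lie algebra of
endomorphisms of `H` which multiply `ψ` by scalars and act semisimply (by commutators) on `End H`. If an
endomorphism `X` acts on all the Tate forms with two and four arguments as it should, then `X` is the sum
of an element of `g` and of an element of the centre of the commutant of `g`.
-/

set_option autoImplicit false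

namespace Pool.Agent.Lib.MP_021685_agQ

open Module

variable {k H : Type*} [Field k] [AddCommGroup H] [Module k H]

/-- The endomorphism `X` acts on the form `T` with `s` arguments (as a derivation) as the
multiplication by `s a / 2`. -/
def ActsOn (X : Module.End k H) (a : k) (s : ℕ) (T : MultilinearMap k (fun _ : Fin s => H) k) : Prop :=
  ∀ v : Fin s → H, ∑ j, T (Function.update v j (X (v j))) = (s : k) / 2 * a * T v

/-- The endomorphism `w ↦ ψ(v, w) u`. -/
def rk (ψ : H →ₗ[k] H →ₗ[k] k) (u v : H) : Module.End k H := (ψ v).smulRight u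

@[simp] theorem rk_apply (ψ : H →ₗ[k] H →ₗ[k] k) (u v w : H) : rk ψ u v w = ψ v w • u := rfl

/-- The form `(u, v) ↦ ψ(E u, v)`. -/
def form2 (ψ : H →ₗ[k] H →ₗ[k] k) (E : Module.End k H) :
    MultilinearMap k (fun _ : Fin 2 => H) k where
  toFun v := ψ (E (v 0)) (v 1)
  map_update_add' := by
    intro inst v j x y
    have hinst : inst = instDecidableEqFin 2 := Subsingleton.elim _ _
    subst hinst
    fin_cases j <;> simp [Function.update]
  map_update_smul' := by
    intro inst v j c x
    have hinst : inst = instDecidableEqFin 2 := Subsingleton.elim _ _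
    subst hinst
    fin_cases j <;> simp [Function.update]

theorem form2_apply (ψ : H →ₗ[k] H →ₗ[k] k) (E : Module.End k H) (v : Fin 2 → H) :
    form2 ψ E v = ψ (E (v 0)) (v 1) := rfl

/-- The form `(u₁, u₂, u₃, u₄) ↦ ψ(p(u₁ ⊗ u₂) u₃, u₄)`. -/
def form4 (ψ : H →ₗ[k] H →ₗ[k] k) (p : Module.End k H →ₗ[k] Module.End k H) :
    MultilinearMap k (fun _ : Fin 4 => H) k where
  toFun v := ψ (p (rk ψ (v 0) (v 1)) (v 2)) (v 3)
  map_update_add' := by
    intro inst v j x y
    have hinst : inst = instDecidableEqFin 4 := Subsingleton.elim _ _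
    subst hinst
    have h0 : ∀ u u' w, rk ψ (u + u') w = rk ψ u w + rk ψ u' w := by
      intro u u' w; ext z; simp
    have h1 : ∀ u w w', rk ψ u (w + w') = rk ψ u w + rk ψ u w' := by
      intro u w w'; ext z; simp [add_smul]
    fin_cases j <;> simp [Function.update, h0, h1]
  map_update_smul' := by
    intro inst v j c x
    have hinst : inst = instDecidableEqFin 4 := Subsingleton.elim _ _
    subst hinst
    have h0 : ∀ (c : k) u w, rk ψ (c • u) w = c • rk ψ u w := by
      intro c u w; ext z; simp only [rk_apply, LinearMap.smul_apply]; exact smul_comm _ _ _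
    have h1 : ∀ (c : k) u w, rk ψ u (c • w) = c • rk ψ u w := by
      intro c u w; ext z
      simp only [rk_apply, LinearMap.smul_apply, map_smul, smul_eq_mul, mul_smul]
    fin_cases j <;> simp [Function.update, h0, h1]

theorem form4_apply (ψ : H →ₗ[k] H →ₗ[k] k) (p : Module.End k H →ₗ[k] Module.End k H)
    (v : Fin 4 → H) : form4 ψ p v = ψ (p (rk ψ (v 0) (v 1)) (v 2)) (v 3) := rfl

theorem rk_comm {ψ : H →ₗ[k] H →ₗ[k] k} {X : Module.End k H} {a : k}
    (hX : ∀ u v, ψ (X u) v + ψ u (X v) = a * ψ u v) (u v : H) :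
    rk ψ (X u) v + rk ψ u (X v) = (X * rk ψ u v - rk ψ u v * X) + a • rk ψ u v := by
  ext w
  have h := hX v w
  have h' : ψ (X v) w = a * ψ v w - ψ v (X w) := by rw [← h]; ring
  simp only [LinearMap.add_apply, rk_apply, LinearMap.sub_apply, Module.End.mul_apply,
    LinearMap.smul_apply, map_smul, h']
  rw [sub_smul, mul_smul]
  abel

theorem sum_form2 (ψ : H →ₗ[k] H →ₗ[k] k) (E X : Module.End k H) (v : Fin 2 → H) :
    ∑ j, form2 ψ E (Function.update v j (X (v j))) =
      ψ (E (X (v 0))) (v 1) + ψ (E (v 0)) (X (v 1)) := by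
  rw [Fin.sum_univ_two]
  simp [form2_apply, Function.update]

theorem sum_form4 (ψ : H →ₗ[k] H →ₗ[k] k) (p : Module.End k H →ₗ[k] Module.End k H)
    (X : Module.End k H) (v : Fin 4 → H) :
    ∑ j, form4 ψ p (Function.update v j (X (v j))) =
      ψ (p (rk ψ (X (v 0)) (v 1) + rk ψ (v 0) (X (v 1))) (v 2)) (v 3) +
        ψ (p (rk ψ (v 0) (v 1)) (X (v 2))) (v 3) + ψ (p (rk ψ (v 0) (v 1)) (v 2)) (X (v 3)) := by
  rw [Fin.sum_univ_four]
  simp [form4_apply, Function.update]

/-- `X` acts on `ψ(E u, v)` as it should if and only if it commutes with `E`. -/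
theorem acts_form2_iff {ψ : H →ₗ[k] H →ₗ[k] k} (hψ : ψ.Nondegenerate) [CharZero k]
    {X : Module.End k H} {a : k}
    (hX : ∀ u v, ψ (X u) v + ψ u (X v) = a * ψ u v) (E : Module.End k H) :
    ActsOn X a 2 (form2 ψ E) ↔ X * E = E * X := by
  constructor
  · intro h
    ext u
    have e : ψ (X (E u)) = ψ (E (X u)) := by
      refine LinearMap.ext fun v => ?_
      have h1 := h ![u, v]
      rw [sum_form2] at h1
      simp only [form2_apply, Matrix.cons_val_zero, Matrix.cons_val_one, Nat.cast_ofNat,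
        div_self (two_ne_zero' k), one_mul] at h1
      have h2 := hX (E u) v
      linear_combination h2 - h1
    have h0 := sub_eq_zero.2 e
    rw [← map_sub] at h0
    have h3 := hψ.1 (X (E u) - E (X u)) (fun v => by rw [h0]; rfl)
    exact sub_eq_zero.1 h3
  · intro h v
    rw [sum_form2]
    have h1 : X (E (v 0)) = E (X (v 0)) := by
      have := congrArg (fun F : Module.End k H => F (v 0)) h
      simpa using this
    rw [← h1, hX (E (v 0)) (v 1)]
    simp [form2_apply]

/-- `X` acts on the form of `p` as it should if and only if `p` commutes with `ad X`. -/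
theorem acts_form4_iff [CharZero k] {ψ : H →ₗ[k] H →ₗ[k] k} (hψ : ψ.Nondegenerate)
    {X : Module.End k H} {a : k}
    (hX : ∀ u v, ψ (X u) v + ψ u (X v) = a * ψ u v) (p : Module.End k H →ₗ[k] Module.End k H) :
    ActsOn X a 4 (form4 ψ p) ↔
      ∀ u v, p (X * rk ψ u v - rk ψ u v * X) = X * p (rk ψ u v) - p (rk ψ u v) * X := by
  have key : ∀ v : Fin 4 → H, ∑ j, form4 ψ p (Function.update v j (X (v j))) =
      ψ (p (X * rk ψ (v 0) (v 1) - rk ψ (v 0) (v 1) * X) (v 2)) (v 3) -
        ψ ((X * p (rk ψ (v 0) (v 1)) - p (rk ψ (v 0) (v 1)) * X) (v 2)) (v 3) +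
        2 * a * form4 ψ p v := by
    intro v
    rw [sum_form4, rk_comm hX]
    have h2 := hX (p (rk ψ (v 0) (v 1)) (v 2)) (v 3)
    simp only [map_add, map_smul, LinearMap.add_apply, LinearMap.smul_apply, smul_eq_mul,
      LinearMap.sub_apply, Module.End.mul_apply, map_sub, form4_apply]
    linear_combination h2
  constructor
  · intro h u v
    ext w
    have e : ψ (p (X * rk ψ u v - rk ψ u v * X) w) =
        ψ ((X * p (rk ψ u v) - p (rk ψ u v) * X) w) := by
      refine LinearMap.ext fun z => ?_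
      have h1 := h ![u, v, w, z]
      rw [key] at h1
      have e4 : ((4 : ℕ) : k) / 2 * a = 2 * a := by norm_num
      rw [e4] at h1
      have h3 := add_eq_right.1 h1
      exact sub_eq_zero.1 h3
    have h0 := sub_eq_zero.2 e
    rw [← map_sub] at h0
    exact sub_eq_zero.1 (hψ.1 _ (fun v => by rw [h0]; rfl))
  · intro h v
    rw [key, h]
    have e4 : ((4 : ℕ) : k) / 2 * a = 2 * a := by norm_num
    rw [e4, sub_self, zero_add]

/-- Every endomorphism is a sum of endomorphisms of rank one. -/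
theorem mem_span_rk [Module.Finite k H] {ψ : H →ₗ[k] H →ₗ[k] k} (hψ : ψ.Nondegenerate)
    (E : Module.End k H) : E ∈ Submodule.span k {F | ∃ u v, F = rk ψ u v} := by
  classical
  let b := Module.finBasis k H
  have hinj : Function.Injective ψ := by
    intro x y hxy
    have : ψ (x - y) = 0 := by rw [map_sub, hxy, sub_self]
    exact sub_eq_zero.1 (hψ.1 _ fun v => by rw [this]; rfl)
  have hsurj : Function.Surjective ψ := by
    have h := LinearMap.injective_iff_surjective_of_finrank_eq_finrank (f := ψ)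
      (by rw [Subspace.dual_finrank_eq])
    exact h.1 hinj
  have hE : E = ∑ i, ((b.coord i).smulRight (E (b i)) : Module.End k H) := by
    refine b.ext fun j => ?_
    simp [LinearMap.sum_apply, Finsupp.single_apply]
  rw [hE]
  refine Submodule.sum_mem _ fun i _ => ?_
  obtain ⟨v, hv⟩ := hsurj (b.coord i)
  refine Submodule.subset_span ⟨E (b i), v, ?_⟩
  rw [← hv]
  rfl

/-- **One form of degree four is enough**: the form of an equivariant projection to `g`. -/
theorem one_core [CharZero k] [Module.Finite k H] {ψ : H →ₗ[k] H →ₗ[k] k} (hψ : ψ.Nondegenerate)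
    {g : Submodule k (Module.End k H)} {c : Module.End k H → k}
    (hlie : ∀ X ∈ g, ∀ Y ∈ g, X * Y - Y * X ∈ g)
    (hc : ∀ X ∈ g, ∀ u v, ψ (X u) v + ψ u (X v) = c X * ψ u v)
    {p : Module.End k H →ₗ[k] Module.End k H} (hpg : ∀ E, p E ∈ g) (hp1 : ∀ E ∈ g, p E = E)
    (hpc : ∀ Y ∈ g, ∀ E, p (Y * E - E * Y) = Y * p E - p E * Y)
    {X : Module.End k H} {a : k}
    (h2 : ∀ T : MultilinearMap k (fun _ : Fin 2 => H) k,
      (∀ Y ∈ g, ActsOn Y (c Y) 2 T) → ActsOn X a 2 T)
    (h4 : ActsOn X a 4 (form4 ψ p)) :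
    (∀ u v, ψ (X u) v + ψ u (X v) = a * ψ u v) ∧
    ∃ Y ∈ g, ∃ Z, X = Y + Z ∧ (∀ W ∈ g, Z * W = W * Z) ∧
      ∀ E : Module.End k H, (∀ W ∈ g, E * W = W * E) → Z * E = E * Z := by
  -- the multiplier of `X`
  have hX : ∀ u v, ψ (X u) v + ψ u (X v) = a * ψ u v := by
    intro u v
    have h := h2 (form2 ψ 1) (fun Y hY => (acts_form2_iff hψ (hc Y hY) 1).2 (by simp)) ![u, v]
    rw [sum_form2] at h
    simpa [form2_apply, div_self (two_ne_zero' k)] using h
  refine ⟨hX, ?_⟩
  -- `X` commutes with the commutant of `g`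
  have hXE : ∀ E : Module.End k H, (∀ Y ∈ g, E * Y = Y * E) → X * E = E * X := by
    intro E hE
    exact (acts_form2_iff hψ hX E).1
      (h2 _ fun Y hY => (acts_form2_iff hψ (hc Y hY) E).2 (hE Y hY).symm)
  have hXp : ∀ E, p (X * E - E * X) = X * p E - p E * X := by
    have hr := (acts_form4_iff hψ hX p).1 h4
    intro E
    refine Submodule.span_induction (p := fun E _ => p (X * E - E * X) = X * p E - p E * X)
      ?_ ?_ ?_ ?_ (mem_span_rk hψ E)
    · rintro _ ⟨u, v, rfl⟩
      exact hr u v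
    · simp
    · intro A B _ _ hA hB
      have e : X * (A + B) - (A + B) * X = (X * A - A * X) + (X * B - B * X) := by noncomm_ring
      rw [e, map_add, hA, hB, map_add]
      noncomm_ring
    · intro t A _ hA
      have e : X * (t • A) - (t • A) * X = t • (X * A - A * X) := by
        rw [mul_smul_comm, smul_mul_assoc, smul_sub]
      rw [e, map_smul, hA, map_smul, mul_smul_comm, smul_mul_assoc, smul_sub]
  have hpp : ∀ E, p (p E) = p E := fun E => hp1 _ (hpg E)
  refine ⟨p X, hpg X, X - p X, by abel, ?_, ?_⟩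
  · intro Y hY
    -- `[X, Y] ∈ g`
    have h1 : X * Y - Y * X ∈ g := by
      have := hXp Y
      rw [hp1 Y hY] at this
      rw [← this]
      exact hpg _
    have h3 : Y * (X - p X) - (X - p X) * Y ∈ g := by
      have e : Y * (X - p X) - (X - p X) * Y =
          -(X * Y - Y * X) - (Y * p X - p X * Y) := by noncomm_ring
      rw [e]
      exact g.sub_mem (g.neg_mem h1) (hlie Y hY _ (hpg X))
    have h0 : Y * (X - p X) - (X - p X) * Y = 0 := by
      have h5 := hpc Y hY (X - p X)
      rw [hp1 _ h3, map_sub, hpp, sub_self, mul_zero, zero_mul, sub_zero] at h5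
      exact h5
    exact (sub_eq_zero.1 h0).symm
  · intro E hE
    rw [sub_mul, mul_sub, hXE E hE, hE _ (hpg X)]

/-- The projection to `g` along a stable complement. -/
theorem exists_equivariant [CharZero k] [Module.Finite k H]
    {g : Submodule k (Module.End k H)} (hlie : ∀ X ∈ g, ∀ Y ∈ g, X * Y - Y * X ∈ g)
    (hss : ∃ W : Submodule k (Module.End k H), (∀ X ∈ g, ∀ Y ∈ W, X * Y - Y * X ∈ W) ∧ IsCompl g W) :
    ∃ p : Module.End k H →ₗ[k] Module.End k H, (∀ E, p E ∈ g) ∧ (∀ E ∈ g, p E = E) ∧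
      ∀ Y ∈ g, ∀ E, p (Y * E - E * Y) = Y * p E - p E * Y := by
  obtain ⟨W, hW, hgW⟩ := hss
  let p : Module.End k H →ₗ[k] Module.End k H := g.subtype ∘ₗ (Submodule.projectionOnto g W hgW)
  have hpg : ∀ E, p E ∈ g := fun E => (Submodule.projectionOnto g W hgW E).2
  have hp1 : ∀ E ∈ g, p E = E := by
    intro E hE
    have := Submodule.projectionOnto_apply_left hgW ⟨E, hE⟩
    exact congrArg Subtype.val this
  have hp0 : ∀ E ∈ W, p E = 0 := by
    intro E hE
    have := (Submodule.projectionOnto_apply_eq_zero_iff hgW (x := E)).2 hE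
    exact congrArg Subtype.val this
  have hpW : ∀ E, E - p E ∈ W := by
    intro E
    refine (Submodule.projectionOnto_apply_eq_zero_iff hgW).1 ?_
    refine Subtype.ext ?_
    show p (E - p E) = 0
    rw [map_sub, hp1 _ (hpg E), sub_self]
  refine ⟨p, hpg, hp1, ?_⟩
  intro Y hY E
  have h1 : Y * E - E * Y = (Y * p E - p E * Y) + (Y * (E - p E) - (E - p E) * Y) := by
    noncomm_ring
  rw [h1, map_add, hp1 _ (hlie Y hY _ (hpg E)), hp0 _ (hW Y hY _ (hpW E)), add_zero]

/-- The form of an equivariant projection is a Tate form. -/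
theorem tate_form4 [CharZero k] {ψ : H →ₗ[k] H →ₗ[k] k} (hψ : ψ.Nondegenerate)
    {g : Submodule k (Module.End k H)} {c : Module.End k H → k}
    (hc : ∀ X ∈ g, ∀ u v, ψ (X u) v + ψ u (X v) = c X * ψ u v)
    {p : Module.End k H →ₗ[k] Module.End k H}
    (hpc : ∀ Y ∈ g, ∀ E, p (Y * E - E * Y) = Y * p E - p E * Y) :
    ∀ Y ∈ g, ActsOn Y (c Y) 4 (form4 ψ p) :=
  fun Y hY => (acts_form4_iff hψ (hc Y hY) p).2 fun _ _ => hpc Y hY _

/-- **Degree four is enough.** -/
theorem four_core [CharZero k] [Module.Finite k H] {ψ : H →ₗ[k] H →ₗ[k] k} (hψ : ψ.Nondegenerate)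
    {g : Submodule k (Module.End k H)} {c : Module.End k H → k}
    (hlie : ∀ X ∈ g, ∀ Y ∈ g, X * Y - Y * X ∈ g)
    (hc : ∀ X ∈ g, ∀ u v, ψ (X u) v + ψ u (X v) = c X * ψ u v)
    (hss : ∃ W : Submodule k (Module.End k H), (∀ X ∈ g, ∀ Y ∈ W, X * Y - Y * X ∈ W) ∧ IsCompl g W)
    {X : Module.End k H} {a : k}
    (h2 : ∀ T : MultilinearMap k (fun _ : Fin 2 => H) k,
      (∀ Y ∈ g, ActsOn Y (c Y) 2 T) → ActsOn X a 2 T)
    (h4 : ∀ T : MultilinearMap k (fun _ : Fin 4 => H) k,
      (∀ Y ∈ g, ActsOn Y (c Y) 4 T) → ActsOn X a 4 T) :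
    (∀ u v, ψ (X u) v + ψ u (X v) = a * ψ u v) ∧
    ∃ Y ∈ g, ∃ Z, X = Y + Z ∧ (∀ W ∈ g, Z * W = W * Z) ∧
      ∀ E : Module.End k H, (∀ W ∈ g, E * W = W * E) → Z * E = E * Z := by
  obtain ⟨p, hpg, hp1, hpc⟩ := exists_equivariant hlie hss
  exact one_core hψ hlie hc hpg hp1 hpc h2 (h4 _ (tate_form4 hψ hc hpc))

end Pool.Agent.Lib.MP_021685_agQ
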