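import Pool.Agent.Lib.MP_021685_agQ.QC

/-!
# Degree four is enough, for abelian varieties
-/

set_option autoImplicit false
set_option linter.unusedSectionVars false

namespace Pool.Agent.Lib.MP_021685_agQ

open Matrix Function Module MP_802513_ag MP_802513_agH MP_802513_agU MP_802513_agS MP_021685_agS
  MP_021685_agP
open scoped TensorProduct

/-- The coordinates of the alternating form attached to a multilinear form. -/
theorem altF_hasC {H : Type*} [AddCommGroup H] [Module ℂ H] {k s : ℕ} (e : Basis (Fin k) ℂ H)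
    (T : MultilinearMap ℂ (fun _ : Fin s => H) ℂ) :
    HasC e (altF T) (mlT (fun l => T (fun a => e (l a)))) := by
  intro j
  rw [altF_apply]
  unfold mlT altT
  refine Finset.sum_congr rfl fun σ _ => ?_
  congr 1
  by_cases h : ∀ a, (j (σ a)).1 = a
  · refine (if_pos h).trans ?_
    show T (fun a => e (j (σ a)).2) = _
    congr 1
    funext a
    have h1 := h a
    have h2 : (Pi.single (j (σ a)).1 (e (j (σ a)).2) : Fin s → H) a =
      (Pi.single (j (σ a)).1 (e (j (σ a)).2) : Fin s → H) (j (σ a)).1 := by rw [h1]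
    rw [h2, Pi.single_eq_same]
  · refine (if_neg h).trans ?_
    push Not at h
    obtain ⟨a, ha⟩ := h
    refine (T.map_coord_zero a ?_).symm
    show (Pi.single (j (σ a)).1 (e (j (σ a)).2) : Fin s → H) a = 0
    rw [Pi.single_eq_of_ne (Ne.symm ha)]

variable {V : Type*} [AddCommGroup V] [Module ℂ V] {L : AddSubgroup V}
  {g : ℕ} {b : Basis (Fin (2 * g)) ℝ V} {e : Basis (Fin (2 * g)) ℂ (ℂ ⊗[ℤ] L)}
  {D : PData (Fin (2 * g))}

/-- A multilinear form with rational coordinates killed by `J` is (the extension of) a Hodge class. -/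
theorem altF_mem_ext (hb : ∀ w, w ∈ L ↔ ∀ l, ∃ n : ℤ, b.repr w l = n)
    (he : ∀ (l : Fin (2 * g)) (h : b l ∈ L), e l = 1 ⊗ₜ[ℤ] (⟨b l, h⟩ : L)) (hJ : D.J = rc (Jr b))
    {i : ℕ} {T : MultilinearMap ℂ (fun _ : Fin (2 * i) => ℂ ⊗[ℤ] L) ℂ}
    {t : (Fin (2 * i) → Fin (2 * g)) → ℚ} (ht : ∀ l, T (fun a => e (l a)) = (t l : ℂ))
    (hk : DM D.J (fun l => (t l : ℂ)) = 0) : altF T ∈ extF ℂ (hodgeC L) (2 * i) i := by
  obtain ⟨η, hη⟩ := exists_ml_form b t
  have hH : IsHodgeClass (powLattice L (2 * i)) i η := by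
    refine HasCoord.hodge hb (i := i) hη ?_
    intro j
    have h2 : (fun j => ((mlT t j : ℚ) : ℂ)) = mlT (fun j => ((t j : ℚ) : ℂ)) := mlT_cast _
    have h3 : DX (rc (Jr b)) (mlT (fun j => ((t j : ℚ) : ℂ))) j = 0 := by
      rw [mlT_eq, DX_alt_dl, ← hJ, hk]
      unfold altT dl
      simp
    rw [← h2] at h3
    exact h3
  obtain ⟨θ, hθ⟩ := exists_extension (F := ℂ) hb he hη
  have hθ2 := (extends_iff hb he hη).mp hθ
  have h3 := altF_hasC e T
  have h4 : (fun l : Fin (2 * i) → Fin (2 * g) => T (fun a => e (l a))) = fun l => (t l : ℂ) :=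
    funext ht
  rw [h4, ← mlT_cast] at h3
  rw [h3.ext hθ2]
  exact Submodule.subset_span ⟨η, hH, hθ⟩

/-- The form `ψ(E u, v)` of a rational endomorphism `E` which commutes with `J`. -/
theorem form2_mem_ext (hb : ∀ w, w ∈ L ↔ ∀ l, ∃ n : ℤ, b.repr w l = n)
    (he : ∀ (l : Fin (2 * g)) (h : b l ∈ L), e l = 1 ⊗ₜ[ℤ] (⟨b l, h⟩ : L)) (hJ : D.J = rc (Jr b))
    {N : Matrix (Fin (2 * g)) (Fin (2 * g)) ℚ} (hN : N ∈ RQ D) :
    altF (form2 (bil e D.Gc) (Matrix.toLin e e (cq N))) ∈ extF ℂ (hodgeC L) 2 1 := by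
  have h0 : ∀ l : Fin (2 * 1) → Fin (2 * g),
      form2 (bil e D.Gc) (Matrix.toLin e e (cq N)) (fun a => e (l a)) =
        (((Nᵀ * D.G) (l 0) (l 1) : ℚ) : ℂ) := by
    intro l
    have h1 : (((Nᵀ * D.G) (l 0) (l 1) : ℚ) : ℂ) = ((cq N)ᵀ * D.Gc) (l 0) (l 1) := by
      rw [← cq_apply, map_mul]
      rfl
    rw [h1, form2_apply, Matrix.toLin_self, Matrix.mul_apply]
    simp only [map_sum, LinearMap.sum_apply, map_smul, LinearMap.smul_apply, smul_eq_mul, bil_basis,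
      Matrix.transpose_apply]
  refine altF_mem_ext (i := 1) hb he hJ h0 ?_
  have h1 : (fun l : Fin (2 * 1) → Fin (2 * g) => (((Nᵀ * D.G) (l 0) (l 1) : ℚ) : ℂ)) =
      fun l : Fin 2 → Fin (2 * g) => ((cq N)ᵀ * D.Gc) (l 0) (l 1) := by
    funext l
    rw [← cq_apply, map_mul]
    rfl
  rw [h1]
  funext j
  refine (TI_two D.J ((cq N)ᵀ * D.Gc) j).trans ?_
  have h2 : D.J * cq N = cq N * D.J := (mem_RQ.mp hN)
  have h3 : D.Jᵀ * ((cq N)ᵀ * D.Gc) = (cq N)ᵀ * (D.Jᵀ * D.Gc) := by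
    rw [← Matrix.mul_assoc, ← Matrix.mul_assoc, ← Matrix.transpose_mul, ← Matrix.transpose_mul, h2]
  rw [h3, Matrix.mul_assoc, ← Matrix.mul_add]
  have h4 : D.Jᵀ * D.Gc + D.Gc * D.J = 0 := D.J_skew
  rw [h4, Matrix.mul_zero]
  rfl

end Pool.Agent.Lib.MP_021685_agQ
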