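import Pool.Agent.Lib.MP_021685_agQ.QD

/-!
# Degree four is enough, for abelian varieties: the main theorem
-/

set_option autoImplicit false
set_option linter.unusedSectionVars false

namespace Pool.Agent.Lib.MP_021685_agQ

open Matrix Function Module MP_802513_ag MP_802513_agH MP_802513_agU MP_802513_agS MP_021685_agS
  MP_021685_agP
open scoped TensorProduct

variable {V : Type*} [AddCommGroup V] [Module ℂ V] {L : AddSubgroup V}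

/-- The endomorphism `X` of `H` acts on the classes of `C` of degree `i` on `A ^ n` as the
multiplication by `i a`. -/
def ActsAt (C : ∀ n i : ℕ, Submodule ℚ ((Fin n → V) [⋀^Fin (2 * i)]→ₗ[ℝ] ℝ))
    (X : Module.End ℂ (ℂ ⊗[ℤ] L)) (a : ℂ) (n i : ℕ) : Prop :=
  ∀ θ : (Fin n → ℂ ⊗[ℤ] L) [⋀^Fin (2 * i)]→ₗ[ℂ] ℂ, θ ∈ extF ℂ C n i →
    ∀ v : Fin (2 * i) → Fin n → ℂ ⊗[ℤ] L,
      ∑ s, θ (Function.update v s (fun m => X (v s m))) = (i : ℂ) * a * θ v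

variable {g : ℕ} {b : Basis (Fin (2 * g)) ℝ V} {e : Basis (Fin (2 * g)) ℂ (ℂ ⊗[ℤ] L)}
  {D : PData (Fin (2 * g))}
  {γ : Submodule ℂ (Module.End ℂ (ℂ ⊗[ℤ] L))} {c : Module.End ℂ (ℂ ⊗[ℤ] L) → ℂ}

theorem cast_two_mul_div (i : ℕ) : ((2 * i : ℕ) : ℂ) / 2 = i := by
  push_cast
  ring

theorem isTate_altF {i : ℕ} {T : MultilinearMap ℂ (fun _ : Fin (2 * i) => ℂ ⊗[ℤ] L) ℂ} :
    IsTate γ c (2 * i) i (altF T) ↔ ∀ Y ∈ γ, ActsOn Y (c Y) (2 * i) T := by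
  constructor
  · intro h Y hY v
    rw [cast_two_mul_div]
    exact acts_of_altF (h Y hY) v
  · intro h Y hY v
    refine acts_altF (t := (i : ℂ) * c Y) (fun w => ?_) v
    rw [← cast_two_mul_div i]
    exact h Y hY w

theorem actsOn_of_at {C : ∀ n i : ℕ, Submodule ℚ ((Fin n → V) [⋀^Fin (2 * i)]→ₗ[ℝ] ℝ)} {i : ℕ}
    {T : MultilinearMap ℂ (fun _ : Fin (2 * i) => ℂ ⊗[ℤ] L) ℂ} {X : Module.End ℂ (ℂ ⊗[ℤ] L)} {a : ℂ}
    (hX : ActsAt C X a (2 * i) i) (hT : altF T ∈ extF ℂ C (2 * i) i) : ActsOn X a (2 * i) T := by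
  intro v
  rw [cast_two_mul_div]
  exact acts_of_altF (hX _ hT) v

theorem bil_nd : (bil e D.Gc).Nondegenerate := bil_nondegenerate e isUnit_Gc

/-- The multiplier of an endomorphism which acts on the Hodge classes of degree one on `A ^ 2`. -/
theorem mult_of_at (hb : ∀ w, w ∈ L ↔ ∀ l, ∃ n : ℤ, b.repr w l = n)
    (he : ∀ (l : Fin (2 * g)) (h : b l ∈ L), e l = 1 ⊗ₜ[ℤ] (⟨b l, h⟩ : L)) (hJ : D.J = rc (Jr b))
    {X : Module.End ℂ (ℂ ⊗[ℤ] L)} {a : ℂ} (hX : ActsAt (hodgeC L) X a 2 1) (u v : ℂ ⊗[ℤ] L) :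
    bil e D.Gc (X u) v + bil e D.Gc u (X v) = a * bil e D.Gc u v := by
  have h0 := form2_mem_ext (D := D) hb he hJ (N := 1) (one_mem (RQ D))
  rw [map_one, Matrix.toLin_one] at h0
  have h1 := actsOn_of_at (i := 1) hX h0 ![u, v]
  have h2 := sum_form2 (bil e D.Gc) LinearMap.id X ![u, v]
  have h3 : bil e D.Gc (X u) v + bil e D.Gc u (X v) =
      ((2 * 1 : ℕ) : ℂ) / 2 * a * form2 (bil e D.Gc) LinearMap.id ![u, v] := h2.symm.trans h1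
  rw [h3, form2_apply]
  simp

/-- An endomorphism which acts on the Hodge classes of degree one on `A ^ 2` commutes with the
endomorphisms of `A`. -/
theorem comm_of_at (hb : ∀ w, w ∈ L ↔ ∀ l, ∃ n : ℤ, b.repr w l = n)
    (he : ∀ (l : Fin (2 * g)) (h : b l ∈ L), e l = 1 ⊗ₜ[ℤ] (⟨b l, h⟩ : L)) (hJ : D.J = rc (Jr b))
    {X : Module.End ℂ (ℂ ⊗[ℤ] L)} {a : ℂ} (hX : ActsAt (hodgeC L) X a 2 1)
    {N : Matrix (Fin (2 * g)) (Fin (2 * g)) ℚ} (hN : N ∈ RQ D) :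
    X * Matrix.toLin e e (cq N) = Matrix.toLin e e (cq N) * X :=
  (acts_form2_iff bil_nd (mult_of_at hb he hJ hX) _).1
    (actsOn_of_at (i := 1) hX (form2_mem_ext hb he hJ hN))

/-- An endomorphism which commutes with `γ` is a combination of endomorphisms of `A` (if the Tate
classes of degree one on `A ^ 2` are combinations of Hodge classes). -/
theorem mem_RC_of_tate (hb : ∀ w, w ∈ L ↔ ∀ l, ∃ n : ℤ, b.repr w l = n)
    (he : ∀ (l : Fin (2 * g)) (h : b l ∈ L), e l = 1 ⊗ₜ[ℤ] (⟨b l, h⟩ : L)) (hJ : D.J = rc (Jr b))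
    (hm : ∀ Y ∈ γ, ∀ u v, bil e D.Gc (Y u) v + bil e D.Gc u (Y v) = c Y * bil e D.Gc u v)
    (h2 : TateHolds (hodgeC L) γ c 2 1) {Z : Module.End ℂ (ℂ ⊗[ℤ] L)}
    (hZ : ∀ W ∈ γ, Z * W = W * Z) : LinearMap.toMatrix e e Z ∈ RC D := by
  have h3 : altF (form2 (bil e D.Gc) Z) ∈ extF ℂ (hodgeC L) 2 1 :=
    h2 _ ((isTate_altF (i := 1)).2 fun Y hY =>
      (acts_form2_iff bil_nd (hm Y hY) Z).2 (hZ Y hY).symm)
  refine mem_RC_of_comm fun X hX => ?_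
  have hX' : LinearMap.toMatrix e e (Matrix.toLin e e X) ∈ D.lie := by
    rw [LinearMap.toMatrix_toLin]
    exact hX
  have h4 := lie_ext hb he hJ hX'
  have h5 := (acts_form2_iff bil_nd (mult_of_at hb he hJ (h4 2 1)) Z).1
    (actsOn_of_at (i := 1) (h4 2 1) h3)
  have h6 := congrArg (LinearMap.toMatrix e e) h5
  rw [LinearMap.toMatrix_mul, LinearMap.toMatrix_mul, LinearMap.toMatrix_toLin] at h6
  exact h6.symm

/-- **One class of degree two on `A ^ 4` is enough**, in coordinates. -/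
theorem one_abelian (hb : ∀ w, w ∈ L ↔ ∀ l, ∃ n : ℤ, b.repr w l = n)
    (he : ∀ (l : Fin (2 * g)) (h : b l ∈ L), e l = 1 ⊗ₜ[ℤ] (⟨b l, h⟩ : L)) (hJ : D.J = rc (Jr b))
    (hlie : ∀ X ∈ γ, ∀ Y ∈ γ, X * Y - Y * X ∈ γ)
    (hT : ∀ θ : (Fin 2 → ℂ ⊗[ℤ] L) [⋀^Fin (2 * 1)]→ₗ[ℂ] ℂ, θ ∈ extF ℂ (hodgeC L) 2 1 →
      IsTate γ c 2 1 θ)
    {P : Module.End ℂ (ℂ ⊗[ℤ] L) →ₗ[ℂ] Module.End ℂ (ℂ ⊗[ℤ] L)} (hPg : ∀ E, P E ∈ γ)
    (hP1 : ∀ E ∈ γ, P E = E) (hPc : ∀ Y ∈ γ, ∀ E, P (Y * E - E * Y) = Y * P E - P E * Y)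
    (h2 : TateHolds (hodgeC L) γ c 2 1)
    {X : Module.End ℂ (ℂ ⊗[ℤ] L)} {a : ℂ} (hX2 : ActsAt (hodgeC L) X a 2 1)
    (hX4 : ActsOn X a 4 (form4 (bil e D.Gc) P)) :
    ∃ Y ∈ γ, ∃ Z, X = Y + Z ∧ (∀ W ∈ γ, Z * W = W * Z) ∧ LinearMap.toMatrix e e Z ∈ RC D ∧
      (∀ N ∈ RQ D, LinearMap.toMatrix e e Z * cq N = cq N * LinearMap.toMatrix e e Z) ∧
      (LinearMap.toMatrix e e Z)ᵀ * D.Gc + D.Gc * LinearMap.toMatrix e e Z = (a - c Y) • D.Gc := by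
  have hat : ∀ Y ∈ γ, ActsAt (hodgeC L) Y (c Y) 2 1 := fun Y hY θ hθ v => hT θ hθ Y hY v
  have hm : ∀ Y ∈ γ, ∀ u v, bil e D.Gc (Y u) v + bil e D.Gc u (Y v) = c Y * bil e D.Gc u v :=
    fun Y hY => mult_of_at hb he hJ (hat Y hY)
  have : Module.Finite ℂ (ℂ ⊗[ℤ] L) := Module.Finite.of_basis e
  obtain ⟨hX, Y, hY, Z, hXYZ, hZ, hZE⟩ := one_core (bil_nd (e := e) (D := D)) hlie hm hPg hP1 hPc
    (X := X) (a := a)
    (fun T hT => actsOn_of_at (i := 1) hX2 (h2 _ ((isTate_altF (i := 1)).2 hT))) hX4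
  refine ⟨Y, hY, Z, hXYZ, hZ, mem_RC_of_tate hb he hJ hm h2 hZ, fun N hN => ?_, ?_⟩
  · have h5 := hZE (Matrix.toLin e e (cq N)) fun W hW => (comm_of_at hb he hJ (hat W hW) hN).symm
    have h6 := congrArg (LinearMap.toMatrix e e) h5
    rw [LinearMap.toMatrix_mul, LinearMap.toMatrix_mul, LinearMap.toMatrix_toLin] at h6
    exact h6
  · refine (bil_mult e D.Gc Z (a - c Y)).1 fun u v => ?_
    have h5 := hX u v
    have h6 := hm Y hY u v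
    rw [hXYZ] at h5
    simp only [LinearMap.add_apply, map_add] at h5
    linear_combination h5 - h6

/-- A central similitude is a scalar, if the central endomorphisms of `A` are symmetric. -/
theorem scalar_of_real
    (hre : ∀ N ∈ RQ D, (∀ N' ∈ RQ D, N * N' = N' * N) → Nᵀ * D.G = D.G * N)
    {Z : Module.End ℂ (ℂ ⊗[ℤ] L)} {t : ℂ} (hZ1 : LinearMap.toMatrix e e Z ∈ RC D)
    (hZ2 : ∀ N ∈ RQ D, LinearMap.toMatrix e e Z * cq N = cq N * LinearMap.toMatrix e e Z)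
    (hZ3 : (LinearMap.toMatrix e e Z)ᵀ * D.Gc + D.Gc * LinearMap.toMatrix e e Z = t • D.Gc) :
    Z = (t / 2) • (1 : Module.End ℂ (ℂ ⊗[ℤ] L)) := by
  have h5 := sym_of_RC hre hZ1 hZ2
  rw [h5] at hZ3
  have h6 : D.Gc * LinearMap.toMatrix e e Z = D.Gc * ((t / 2) • (1 : Matrix _ _ ℂ)) := by
    rw [Matrix.mul_smul, Matrix.mul_one]
    have h7 : (2 : ℂ) • (D.Gc * LinearMap.toMatrix e e Z) = t • D.Gc := by
      rw [two_smul]
      exact hZ3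
    have h8 := congrArg (fun M => (1 / 2 : ℂ) • M) h7
    simp only [smul_smul] at h8
    have e1 : (1 / 2 : ℂ) * 2 = 1 := by norm_num
    have e2 : (1 / 2 : ℂ) * t = t / 2 := by ring
    rw [e1, e2, one_smul] at h8
    exact h8
  have h7 := congrArg (fun M => D.Gc⁻¹ * M) h6
  simp only [← Matrix.mul_assoc, Matrix.nonsing_inv_mul _ isUnit_Gc, Matrix.one_mul] at h7
  have h9 := congrArg (Matrix.toLin e e) h7
  rw [Matrix.toLin_toMatrix, map_smul, Matrix.toLin_one] at h9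
  exact h9

end Pool.Agent.Lib.MP_021685_agQ
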