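import Pool.Agent.Lib.MP_021685_agQ.QF
import Pool.Agent.Lib.MP_021685_agP.PN
import Pool.Agent.Lib.MP_021685_agP.PMc

/-!
# Every abelian variety: the conjugates of `J`
-/

set_option autoImplicit false
set_option linter.unusedSectionVars false

namespace Pool.Agent.Lib.MP_021685_agQ

open Matrix Function Module MP_802513_ag MP_802513_agH MP_802513_agU MP_802513_agS MP_021685_agS
  MP_021685_agP
open scoped TensorProduct

variable {V : Type*} [AddCommGroup V] [Module ℂ V] {L : AddSubgroup V}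
  {g : ℕ} {b : Basis (Fin (2 * g)) ℝ V} {e : Basis (Fin (2 * g)) ℂ (ℂ ⊗[ℤ] L)}
  {D : PData (Fin (2 * g))}
  {γ : Submodule ℂ (Module.End ℂ (ℂ ⊗[ℤ] L))} {c : Module.End ℂ (ℂ ⊗[ℤ] L) → ℂ}

/-- The alternating tensors killed by the conjugates of `J`. -/
def killedJ (D : PData (Fin (2 * g))) (n s : ℕ) :
    Submodule ℂ ((Fin s → Fin n × Fin (2 * g)) → ℂ) where
  carrier := {T | IsAlt T ∧ ∀ σ : ℂ ≃+* ℂ, DM (lift (Fin n) (D.J.map σ)) T = 0}
  add_mem' := by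
    rintro T U ⟨h1, h2⟩ ⟨h1', h2'⟩
    refine ⟨fun σ j => ?_, fun X => by rw [DM_add, h2 X, h2' X, add_zero]⟩
    rw [Pi.add_apply, Pi.add_apply, h1, h1', smul_add]
  zero_mem' := by
    refine ⟨fun σ j => by simp, fun X => ?_⟩
    funext j
    simp [DM]
  smul_mem' := by
    rintro r T ⟨h1, h2⟩
    refine ⟨fun σ j => ?_, fun X => by rw [DM_smul, h2 X, smul_zero]⟩
    rw [Pi.smul_apply, Pi.smul_apply, h1, smul_comm]

theorem killedJ_aut {n s : ℕ} (σ : ℂ ≃+* ℂ) {T : (Fin s → Fin n × Fin (2 * g)) → ℂ}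
    (hT : T ∈ killedJ D n s) : (fun j => σ (T j)) ∈ killedJ D n s := by
  obtain ⟨h1, h2⟩ := hT
  refine ⟨fun τ j => ?_, fun ρ => ?_⟩
  · beta_reduce
    rw [h1, zsmul_eq_mul, zsmul_eq_mul, map_mul, map_intCast]
  · have h3 := h2 (ρ.trans σ.symm)
    have h4 : (lift (Fin n) (D.J.map (ρ.trans σ.symm))).map (σ : ℂ →+* ℂ) =
        lift (Fin n) (D.J.map ρ) := by
      rw [lift_map']
      congr 1
      ext a b
      simp
    funext j
    have h5 := DM_map (σ : ℂ →+* ℂ) (lift (Fin n) (D.J.map (ρ.trans σ.symm))) T j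
    rw [h3, h4] at h5
    exact Eq.trans h5 (map_zero _)

/-- The forms killed by the conjugates of `J` are combinations of Hodge classes. -/
theorem mem_ext_of_J (hb : ∀ w, w ∈ L ↔ ∀ l, ∃ n : ℤ, b.repr w l = n)
    (he : ∀ (l : Fin (2 * g)) (h : b l ∈ L), e l = 1 ⊗ₜ[ℤ] (⟨b l, h⟩ : L)) (hJ : D.J = rc (Jr b))
    {n i : ℕ} {θ : (Fin n → ℂ ⊗[ℤ] L) [⋀^Fin (2 * i)]→ₗ[ℂ] ℂ}
    (h : ∀ σ : ℂ ≃+* ℂ, DM (lift (Fin n) (D.J.map σ)) (coordL e n (2 * i) θ) = 0) :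
    θ ∈ extF ℂ (hodgeC L) n i := by
  have h0 : coordL e n (2 * i) θ ∈ killedJ D n (2 * i) := ⟨(coordL_hasC e θ).isAlt, h⟩
  have h1 := le_span_rational (killedJ D n (2 * i)) (fun σ w hw => killedJ_aut σ hw) h0
  have h2 : coordL e n (2 * i) θ ∈ (extF ℂ (hodgeC L) n i).map (coordL e n (2 * i)) := by
    refine (Submodule.span_le.2 ?_) h1
    rintro w ⟨⟨hw1, hw2⟩, q, hq⟩
    have hw : w = fun j => ((q j : ℚ) : ℂ) := funext hq
    have hqa : IsAlt q := by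
      intro σ j
      have h3 := hw1 σ j
      rw [hq, hq, zsmul_eq_mul] at h3
      rw [zsmul_eq_mul]
      exact_mod_cast h3
    obtain ⟨η, hη, -⟩ := exists_form' (b := b) hqa
    have hH : IsHodgeClass (powLattice L n) i η := by
      refine HasCoord.hodge hb (i := i) hη fun j => ?_
      have h3 := congrFun (hw2 (RingEquiv.refl ℂ)) j
      have h4 : D.J.map (RingEquiv.refl ℂ) = D.J := by
        ext a b
        simp
      rw [hw, h4, ← DX_lift, hJ] at h3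
      exact h3
    obtain ⟨θ', hθ'⟩ := exists_extension (F := ℂ) hb he hη
    refine ⟨θ', Submodule.subset_span ⟨η, hH, hθ'⟩, ?_⟩
    rw [hw]
    exact (coordL_hasC e θ').unique ((extends_iff hb he hη).1 hθ')
  obtain ⟨θ', hθ', h3⟩ := h2
  have h4 := coordL_hasC e θ'
  rw [h3] at h4
  rw [(coordL_hasC e θ).ext h4]
  exact hθ'

/-- The trace of a similitude. -/
theorem tr_of_mult {M : Matrix (Fin (2 * g)) (Fin (2 * g)) ℂ} {m : ℂ}
    (h : Mᵀ * D.Gc + D.Gc * M = m • D.Gc) : M.trace = (g : ℂ) * m := by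
  have h1 := congrArg (fun A => (A * D.Gc⁻¹).trace) h
  simp only [Matrix.add_mul, Matrix.trace_add, Matrix.smul_mul, Matrix.trace_smul] at h1
  have h2 : (Mᵀ * D.Gc * D.Gc⁻¹).trace = M.trace := by
    rw [Matrix.mul_assoc, Matrix.mul_nonsing_inv _ isUnit_Gc, Matrix.mul_one,
      Matrix.trace_transpose]
  have h3 : (D.Gc * M * D.Gc⁻¹).trace = M.trace := by
    rw [Matrix.trace_mul_comm, ← Matrix.mul_assoc, Matrix.nonsing_inv_mul _ isUnit_Gc,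
      Matrix.one_mul]
  have h4 : (D.Gc * D.Gc⁻¹).trace = 2 * g := by
    rw [Matrix.mul_nonsing_inv _ isUnit_Gc, Matrix.trace_one, Fintype.card_fin]
    push_cast
    ring
  rw [h2, h3, h4, smul_eq_mul] at h1
  linear_combination h1 / 2

/-- The skew part of a similitude. -/
theorem skew_of_mult {M : Matrix (Fin (2 * g)) (Fin (2 * g)) ℂ} {m : ℂ}
    (h : Mᵀ * D.Gc + D.Gc * M = m • D.Gc) :
    (M - (m / 2) • (1 : Matrix (Fin (2 * g)) (Fin (2 * g)) ℂ))ᵀ * D.Gc +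
      D.Gc * (M - (m / 2) • (1 : Matrix (Fin (2 * g)) (Fin (2 * g)) ℂ)) = 0 := by
  rw [Matrix.transpose_sub, Matrix.transpose_smul, Matrix.transpose_one, Matrix.sub_mul,
    Matrix.mul_sub, Matrix.smul_mul, Matrix.mul_smul, Matrix.one_mul, Matrix.mul_one]
  have h3 : m • D.Gc = (m / 2) • D.Gc + (m / 2) • D.Gc := by
    rw [← add_smul, add_halves]
  rw [h3] at h
  calc Mᵀ * D.Gc - (m / 2) • D.Gc + (D.Gc * M - (m / 2) • D.Gc)
      = (Mᵀ * D.Gc + D.Gc * M) - ((m / 2) • D.Gc + (m / 2) • D.Gc) := by abel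
    _ = 0 := by rw [h, sub_self]

theorem mem_skewPart {Y : Matrix (Fin (2 * g)) (Fin (2 * g)) ℂ} : Y ∈ skewPart e D γ ↔
    Yᵀ * D.Gc + D.Gc * Y = 0 ∧
      ∃ a : ℂ, Matrix.toLin e e Y + a • (1 : Module.End ℂ (ℂ ⊗[ℤ] L)) ∈ γ := Iff.rfl

/-- The skew part of an element of `γ + ℂ`. -/
theorem skewPart_of {m a : ℂ} {X : Module.End ℂ (ℂ ⊗[ℤ] L)}
    (hX : (LinearMap.toMatrix e e X)ᵀ * D.Gc + D.Gc * LinearMap.toMatrix e e X = m • D.Gc)
    (hXγ : X + a • (1 : Module.End ℂ (ℂ ⊗[ℤ] L)) ∈ γ) :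
    LinearMap.toMatrix e e X - (m / 2) • (1 : Matrix (Fin (2 * g)) (Fin (2 * g)) ℂ) ∈
      skewPart e D γ := by
  refine mem_skewPart.2 ⟨skew_of_mult hX, m / 2 + a, ?_⟩
  rw [map_sub, Matrix.toLin_toMatrix, map_smul, Matrix.toLin_one]
  have h : X - (m / 2) • (LinearMap.id : Module.End ℂ (ℂ ⊗[ℤ] L)) +
      (m / 2 + a) • (1 : Module.End ℂ (ℂ ⊗[ℤ] L)) = X + a • (1 : Module.End ℂ (ℂ ⊗[ℤ] L)) := by
    have h1 : (LinearMap.id : Module.End ℂ (ℂ ⊗[ℤ] L)) = 1 := rfl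
    rw [h1]
    module
  rw [h]
  exact hXγ

/-- The hypotheses on the Lie algebra `γ` and on the equivariant projection `P` to `γ + ℂ`. -/
structure GeoP (L : AddSubgroup V) (γ : Submodule ℂ (Module.End ℂ (ℂ ⊗[ℤ] L)))
    (c : Module.End ℂ (ℂ ⊗[ℤ] L) → ℂ)
    (P : Module.End ℂ (ℂ ⊗[ℤ] L) →ₗ[ℂ] Module.End ℂ (ℂ ⊗[ℤ] L)) : Prop where
  lie : ∀ X ∈ γ, ∀ Y ∈ γ, X * Y - Y * X ∈ γ
  tate : ∀ θ : (Fin 2 → ℂ ⊗[ℤ] L) [⋀^Fin (2 * 1)]→ₗ[ℂ] ℂ, θ ∈ extF ℂ (hodgeC L) 2 1 →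
    IsTate γ c 2 1 θ
  falt : TateHolds (hodgeC L) γ c 2 1
  semisimple : ∀ W : Submodule ℂ (Module.End ℂ (ℂ ⊗[ℤ] L)),
    (∀ X ∈ γ, ∀ A ∈ W, X * A - A * X ∈ W) →
    ∃ W' : Submodule ℂ (Module.End ℂ (ℂ ⊗[ℤ] L)), (∀ X ∈ γ, ∀ A ∈ W', X * A - A * X ∈ W') ∧
      IsCompl W W'
  sen : ∀ τ : ℂ ≃+* ℂ, ∃ h ∈ γ, h * h = h ∧ c h = 1 ∧ ∀ T ∈ EndAlg L,
    ∀ T' : Module.End ℂ (ℂ ⊗[ℤ] L), EndExt T T' →
      LinearMap.trace ℂ _ (h * T') = τ (LinearMap.trace ℂ V T)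
  P_mem : ∀ E, ∃ a : ℂ, P E + a • (1 : Module.End ℂ (ℂ ⊗[ℤ] L)) ∈ γ
  P_id : ∀ E ∈ γ, P E = E
  P_one : P 1 = 1
  P_br : ∀ Y ∈ γ, ∀ E, P (Y * E - E * Y) = Y * P E - P E * Y

/-- The projection, in coordinates. -/
noncomputable def matP (e : Basis (Fin (2 * g)) ℂ (ℂ ⊗[ℤ] L))
    (P : Module.End ℂ (ℂ ⊗[ℤ] L) →ₗ[ℂ] Module.End ℂ (ℂ ⊗[ℤ] L)) :
    Matrix (Fin (2 * g)) (Fin (2 * g)) ℂ →ₗ[ℂ] Matrix (Fin (2 * g)) (Fin (2 * g)) ℂ where
  toFun A := LinearMap.toMatrix e e (P (Matrix.toLin e e A)) -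
    ((LinearMap.toMatrix e e (P (Matrix.toLin e e A))).trace / (2 * g)) •
      (1 : Matrix (Fin (2 * g)) (Fin (2 * g)) ℂ)
  map_add' A B := by
    rw [map_add, map_add, map_add, Matrix.trace_add, add_div, add_smul]
    abel
  map_smul' r A := by
    rw [map_smul, map_smul, map_smul, Matrix.trace_smul, RingHom.id_apply, smul_sub, smul_smul,
      smul_eq_mul, mul_div_assoc]

theorem matP_apply (P : Module.End ℂ (ℂ ⊗[ℤ] L) →ₗ[ℂ] Module.End ℂ (ℂ ⊗[ℤ] L))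
    (A : Matrix (Fin (2 * g)) (Fin (2 * g)) ℂ) :
    matP e P A = LinearMap.toMatrix e e (P (Matrix.toLin e e A)) -
      ((LinearMap.toMatrix e e (P (Matrix.toLin e e A))).trace / (2 * g)) •
        (1 : Matrix (Fin (2 * g)) (Fin (2 * g)) ℂ) := rfl

theorem toLin_br (X A : Matrix (Fin (2 * g)) (Fin (2 * g)) ℂ) :
    Matrix.toLin e e (X * A - A * X) =
      Matrix.toLin e e X * Matrix.toLin e e A - Matrix.toLin e e A * Matrix.toLin e e X := by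
  rw [map_sub, Matrix.toLin_mul e e e, Matrix.toLin_mul e e e]
  rfl

/-- If `P` commutes with the brackets with `toLin X`, then `matP P` commutes with the brackets with
`X`. -/
theorem matP_br {P : Module.End ℂ (ℂ ⊗[ℤ] L) →ₗ[ℂ] Module.End ℂ (ℂ ⊗[ℤ] L)}
    {X : Matrix (Fin (2 * g)) (Fin (2 * g)) ℂ}
    (h : ∀ E, P (Matrix.toLin e e X * E - E * Matrix.toLin e e X) =
      Matrix.toLin e e X * P E - P E * Matrix.toLin e e X)
    (A : Matrix (Fin (2 * g)) (Fin (2 * g)) ℂ) :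
    matP e P (X * A - A * X) = X * matP e P A - matP e P A * X := by
  rw [matP_apply, matP_apply, toLin_br, h, map_sub, LinearMap.toMatrix_mul, LinearMap.toMatrix_mul,
    LinearMap.toMatrix_toLin, Matrix.trace_sub, Matrix.trace_mul_comm, sub_self, zero_div,
    zero_smul, sub_zero, Matrix.mul_sub, Matrix.sub_mul, Matrix.mul_smul, Matrix.smul_mul,
    Matrix.mul_one, Matrix.one_mul]
  abel

end Pool.Agent.Lib.MP_021685_agQ
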