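import Pool.Agent.Lib.MP_021685_agQ.QG

/-!
# Every abelian variety: one class of degree two on `A ^ 4` is enough
-/

set_option autoImplicit false
set_option linter.unusedSectionVars false

namespace Pool.Agent.Lib.MP_021685_agQ

open Matrix Function Module MP_802513_ag MP_802513_agH MP_802513_agU MP_802513_agS MP_021685_agS
  MP_021685_agP
open scoped TensorProduct

/-- If `X` acts on the form of `p` as it should, then `p` commutes with the brackets with `X`. -/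
theorem comm_of_acts4 {k H : Type*} [Field k] [AddCommGroup H] [Module k H] [CharZero k]
    [Module.Finite k H] {ψ : H →ₗ[k] H →ₗ[k] k} (hψ : ψ.Nondegenerate)
    {X : Module.End k H} {a : k} (hX : ∀ u v, ψ (X u) v + ψ u (X v) = a * ψ u v)
    {p : Module.End k H →ₗ[k] Module.End k H} (h4 : ActsOn X a 4 (form4 ψ p))
    (E : Module.End k H) : p (X * E - E * X) = X * p E - p E * X := by
  have hr := (acts_form4_iff hψ hX p).1 h4
  refine Submodule.span_induction (p := fun E _ => p (X * E - E * X) = X * p E - p E * X)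
    ?_ ?_ ?_ ?_ (mem_span_rk hψ E)
  · rintro _ ⟨u, v, rfl⟩
    exact hr u v
  · simp
  · intro A B _ _ hA hB
    have e : X * (A + B) - (A + B) * X = (X * A - A * X) + (X * B - B * X) := by noncomm_ring
    rw [e, map_add, hA, hB, map_add]
    noncomm_ring
  · intro t A _ hA
    have e : X * (t • A) - (t • A) * X = t • (X * A - A * X) := by
      rw [mul_smul_comm, smul_mul_assoc, smul_sub]
    rw [e, map_smul, hA, map_smul, mul_smul_comm, smul_mul_assoc, smul_sub]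

variable {V : Type*} [AddCommGroup V] [Module ℂ V] {L : AddSubgroup V}
  {g : ℕ} {b : Basis (Fin (2 * g)) ℝ V} {e : Basis (Fin (2 * g)) ℂ (ℂ ⊗[ℤ] L)}
  {D : PData (Fin (2 * g))}
  {γ : Submodule ℂ (Module.End ℂ (ℂ ⊗[ℤ] L))} {c : Module.End ℂ (ℂ ⊗[ℤ] L) → ℂ}
  {P : Module.End ℂ (ℂ ⊗[ℤ] L) →ₗ[ℂ] Module.End ℂ (ℂ ⊗[ℤ] L)}

/-- The multipliers. -/
theorem GeoP.mult (h : GeoP L γ c P) (hb : ∀ w, w ∈ L ↔ ∀ l, ∃ n : ℤ, b.repr w l = n)
    (he : ∀ (l : Fin (2 * g)) (h : b l ∈ L), e l = 1 ⊗ₜ[ℤ] (⟨b l, h⟩ : L)) (hJ : D.J = rc (Jr b))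
    {Y : Module.End ℂ (ℂ ⊗[ℤ] L)} (hY : Y ∈ γ) :
    (LinearMap.toMatrix e e Y)ᵀ * D.Gc + D.Gc * LinearMap.toMatrix e e Y = c Y • D.Gc :=
  (bil_mult e D.Gc Y (c Y)).1 (mult_of_at hb he hJ fun θ hθ v => h.tate θ hθ Y hY v)

/-- The multipliers of the elements of `γ + ℂ`. -/
theorem GeoP.mult' (h : GeoP L γ c P) (hb : ∀ w, w ∈ L ↔ ∀ l, ∃ n : ℤ, b.repr w l = n)
    (he : ∀ (l : Fin (2 * g)) (h : b l ∈ L), e l = 1 ⊗ₜ[ℤ] (⟨b l, h⟩ : L)) (hJ : D.J = rc (Jr b))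
    {Y : Module.End ℂ (ℂ ⊗[ℤ] L)} {a : ℂ} (hY : Y + a • (1 : Module.End ℂ (ℂ ⊗[ℤ] L)) ∈ γ) :
    (LinearMap.toMatrix e e Y)ᵀ * D.Gc + D.Gc * LinearMap.toMatrix e e Y =
      (c (Y + a • (1 : Module.End ℂ (ℂ ⊗[ℤ] L))) - 2 * a) • D.Gc := by
  have h1 := h.mult (D := D) hb he hJ hY
  rw [map_add, map_smul, Module.End.one_eq_id, LinearMap.toMatrix_id, Matrix.transpose_add,
    Matrix.transpose_smul, Matrix.transpose_one, Matrix.add_mul, Matrix.mul_add, Matrix.smul_mul,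
    Matrix.mul_smul, Matrix.one_mul, Matrix.mul_one] at h1
  have h2 : (2 * a) • D.Gc = a • D.Gc + a • D.Gc := by
    rw [← add_smul]
    congr 1
    ring
  rw [sub_smul, Module.End.one_eq_id, ← h1, h2]
  abel

theorem GeoP.comm_endo (h : GeoP L γ c P) (hb : ∀ w, w ∈ L ↔ ∀ l, ∃ n : ℤ, b.repr w l = n)
    (he : ∀ (l : Fin (2 * g)) (h : b l ∈ L), e l = 1 ⊗ₜ[ℤ] (⟨b l, h⟩ : L)) (hJ : D.J = rc (Jr b))
    {X : Matrix (Fin (2 * g)) (Fin (2 * g)) ℂ} (hX : X ∈ skewPart e D γ)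
    {N : Matrix (Fin (2 * g)) (Fin (2 * g)) ℚ} (hN : N ∈ RQ D) : X * cq N = cq N * X := by
  obtain ⟨-, a, ha⟩ := mem_skewPart.1 hX
  have h1 := comm_of_at (D := D) hb he hJ (fun θ hθ v => h.tate θ hθ _ ha v) hN
  rw [add_mul, mul_add, smul_one_mul, mul_smul_one, add_left_inj] at h1
  have h2 := congrArg (LinearMap.toMatrix e e) h1
  rw [LinearMap.toMatrix_mul, LinearMap.toMatrix_mul, LinearMap.toMatrix_toLin,
    LinearMap.toMatrix_toLin] at h2
  exact h2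

theorem GeoP.comm_RC (h : GeoP L γ c P) (hb : ∀ w, w ∈ L ↔ ∀ l, ∃ n : ℤ, b.repr w l = n)
    (he : ∀ (l : Fin (2 * g)) (h : b l ∈ L), e l = 1 ⊗ₜ[ℤ] (⟨b l, h⟩ : L)) (hJ : D.J = rc (Jr b))
    {Y : Matrix (Fin (2 * g)) (Fin (2 * g)) ℂ} (hY : ∀ X ∈ skewPart e D γ, X * Y = Y * X) :
    Y ∈ RC D := by
  have h1 := mem_RC_of_tate (D := D) hb he hJ (Z := Matrix.toLin e e Y)
    (fun W hW => (bil_mult e D.Gc W (c W)).2 (h.mult hb he hJ hW)) h.falt (fun W hW => by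
      have h2 : LinearMap.toMatrix e e W - (c W / 2) • (1 : Matrix (Fin (2 * g)) (Fin (2 * g)) ℂ) ∈
          skewPart e D γ :=
        skewPart_of (a := 0) (h.mult hb he hJ hW) (by rw [zero_smul, add_zero]; exact hW)
      have h3 := hY _ h2
      rw [Matrix.sub_mul, Matrix.mul_sub, Matrix.smul_mul, Matrix.mul_smul, Matrix.one_mul,
        Matrix.mul_one, sub_left_inj] at h3
      have h4 := congrArg (Matrix.toLin e e) h3
      rw [Matrix.toLin_mul e e e, Matrix.toLin_mul e e e, Matrix.toLin_toMatrix] at h4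
      exact h4.symm)
  rw [LinearMap.toMatrix_toLin] at h1
  exact h1

theorem GeoP.matP_mem (h : GeoP L γ c P) (hb : ∀ w, w ∈ L ↔ ∀ l, ∃ n : ℤ, b.repr w l = n)
    (he : ∀ (l : Fin (2 * g)) (h : b l ∈ L), e l = 1 ⊗ₜ[ℤ] (⟨b l, h⟩ : L)) (hJ : D.J = rc (Jr b))
    (A : Matrix (Fin (2 * g)) (Fin (2 * g)) ℂ) : matP e P A ∈ skewPart e D γ := by
  obtain ⟨a, ha⟩ := h.P_mem (Matrix.toLin e e A)
  have h1 := h.mult' (D := D) hb he hJ ha
  have h2 := skewPart_of (D := D) h1 ha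
  have h3 := tr_of_mult h1
  rw [matP_apply, h3]
  rcases Nat.eq_zero_or_pos g with hg | hg
  · subst hg
    have h4 : ∀ M M' : Matrix (Fin (2 * 0)) (Fin (2 * 0)) ℂ, M = M' := by
      intro M M'
      ext i
      exact absurd i.2 (by omega)
    exact Eq.subst (motive := fun M => M ∈ skewPart e D γ) (h4 _ _) h2
  · have h5 : (g : ℂ) ≠ 0 := by exact_mod_cast hg.ne'
    have h6 : (g : ℂ) * (c (P (Matrix.toLin e e A) + a • 1) - 2 * a) / (2 * g) =
        (c (P (Matrix.toLin e e A) + a • 1) - 2 * a) / 2 := by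
      field_simp
    rw [h6]
    exact h2

theorem GeoP.matP_id (h : GeoP L γ c P)
    {A : Matrix (Fin (2 * g)) (Fin (2 * g)) ℂ} (hA : A ∈ skewPart e D γ) : matP e P A = A := by
  obtain ⟨h1, a, ha⟩ := mem_skewPart.1 hA
  have h2 := h.P_id _ ha
  rw [map_add, map_smul, h.P_one, add_left_inj] at h2
  have h3 : A.trace = 0 := by
    have h4 := tr_of_mult (m := 0) (D := D) (M := A) (by rw [zero_smul]; exact h1)
    rw [h4, mul_zero]
  rw [matP_apply, h2, LinearMap.toMatrix_toLin, h3, zero_div, zero_smul, sub_zero]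

theorem GeoP.matP_skew (h : GeoP L γ c P) {X : Matrix (Fin (2 * g)) (Fin (2 * g)) ℂ}
    (hX : X ∈ skewPart e D γ) (A : Matrix (Fin (2 * g)) (Fin (2 * g)) ℂ) :
    matP e P (X * A - A * X) = X * matP e P A - matP e P A * X := by
  obtain ⟨-, a, ha⟩ := mem_skewPart.1 hX
  refine matP_br (fun E => ?_) A
  have h1 := h.P_br _ ha E
  have e1 : ∀ E : Module.End ℂ (ℂ ⊗[ℤ] L), (Matrix.toLin e e X + a • 1) * E -
      E * (Matrix.toLin e e X + a • 1) = Matrix.toLin e e X * E - E * Matrix.toLin e e X := by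
    intro E
    rw [add_mul, mul_add, smul_one_mul, mul_smul_one, add_sub_add_right_eq_sub]
  rw [e1, e1] at h1
  exact h1

theorem GeoP.ss (h : GeoP L γ c P) (hb : ∀ w, w ∈ L ↔ ∀ l, ∃ n : ℤ, b.repr w l = n)
    (he : ∀ (l : Fin (2 * g)) (h : b l ∈ L), e l = 1 ⊗ₜ[ℤ] (⟨b l, h⟩ : L)) (hJ : D.J = rc (Jr b))
    (W : Submodule ℂ (Matrix (Fin (2 * g)) (Fin (2 * g)) ℂ))
    (hW : ∀ X ∈ skewPart e D γ, ∀ A ∈ W, X * A - A * X ∈ W) :
    ∃ W' : Submodule ℂ (Matrix (Fin (2 * g)) (Fin (2 * g)) ℂ),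
      (∀ X ∈ skewPart e D γ, ∀ A ∈ W', X * A - A * X ∈ W') ∧ IsCompl W W' := by
  obtain ⟨W', hW', hc⟩ := h.semisimple (W.map (Matrix.toLin e e : _ →ₗ[ℂ] _)) (by
    rintro Y hY _ ⟨A, hA, rfl⟩
    have h2 : LinearMap.toMatrix e e Y - (c Y / 2) • (1 : Matrix (Fin (2 * g)) (Fin (2 * g)) ℂ) ∈
        skewPart e D γ :=
      skewPart_of (a := 0) (h.mult hb he hJ hY) (by rw [zero_smul, add_zero]; exact hY)
    refine ⟨_, hW _ h2 A hA, ?_⟩
    have e1 : (LinearMap.toMatrix e e Y - (c Y / 2) • (1 : Matrix (Fin (2 * g)) (Fin (2 * g)) ℂ)) * A -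
        A * (LinearMap.toMatrix e e Y - (c Y / 2) • (1 : Matrix (Fin (2 * g)) (Fin (2 * g)) ℂ)) =
        LinearMap.toMatrix e e Y * A - A * LinearMap.toMatrix e e Y := by
      rw [Matrix.sub_mul, Matrix.mul_sub, Matrix.smul_mul, Matrix.mul_smul, Matrix.one_mul,
        Matrix.mul_one, sub_sub_sub_cancel_right]
    rw [e1]
    show Matrix.toLin e e _ = _
    rw [toLin_br, Matrix.toLin_toMatrix]
    rfl)
  refine ⟨W'.comap (Matrix.toLin e e : _ →ₗ[ℂ] _), ?_, ?_⟩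
  · intro X hX A hA
    obtain ⟨-, a, ha⟩ := mem_skewPart.1 hX
    have h1 := hW' _ ha (Matrix.toLin e e A) hA
    have e1 : (Matrix.toLin e e X + a • 1) * Matrix.toLin e e A -
        Matrix.toLin e e A * (Matrix.toLin e e X + a • 1) = Matrix.toLin e e (X * A - A * X) := by
      rw [toLin_br, add_mul, mul_add, smul_one_mul, mul_smul_one, add_sub_add_right_eq_sub]
    rw [e1] at h1
    exact h1
  · rw [isCompl_iff, Submodule.disjoint_def, codisjoint_iff]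
    constructor
    · intro x hx hx'
      have h1 := (Submodule.disjoint_def.1 hc.disjoint) (Matrix.toLin e e x)
        (Submodule.mem_map_of_mem hx) hx'
      exact (Matrix.toLin e e).map_eq_zero_iff.1 h1
    · rw [eq_top_iff]
      intro x _
      obtain ⟨_, ⟨w, hw, rfl⟩, w', hw', h1⟩ := Submodule.mem_sup.1 (by
        rw [hc.sup_eq_top]
        exact Submodule.mem_top : Matrix.toLin e e x ∈ W.map (Matrix.toLin e e : _ →ₗ[ℂ] _) ⊔ W')
      refine Submodule.mem_sup.2 ⟨w, hw, LinearMap.toMatrix e e w', ?_, ?_⟩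
      · show Matrix.toLin e e _ ∈ W'
        rw [Matrix.toLin_toMatrix]
        exact hw'
      · have h2 := congrArg (LinearMap.toMatrix e e) h1
        rw [map_add, LinearMap.toMatrix_toLin] at h2
        rw [← h2]
        congr 1
        exact (LinearMap.toMatrix_toLin e e w).symm

theorem GeoP.senM (h : GeoP L γ c P) (hb : ∀ w, w ∈ L ↔ ∀ l, ∃ n : ℤ, b.repr w l = n)
    (he : ∀ (l : Fin (2 * g)) (h : b l ∈ L), e l = 1 ⊗ₜ[ℤ] (⟨b l, h⟩ : L)) (hJ : D.J = rc (Jr b)) :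
    ∃ c₀ : ℂ, c₀ ≠ 0 ∧ ∀ τ : ℂ ≃+* ℂ, ∃ X ∈ skewPart e D γ, X * X = 1 ∧ ∀ N ∈ RQ D,
      (∀ N' ∈ RQ D, N * N' = N' * N) → Nᵀ * D.G = -(D.G * N) →
        (X * cq N).trace = τ (c₀ * (D.J * cq N).trace) := by
  refine ⟨-Complex.I, neg_ne_zero.2 Complex.I_ne_zero, fun τ => ?_⟩
  obtain ⟨h', hh, hid, hc, htr⟩ := h.sen τ
  have h3 := skewPart_of (D := D) (a := 0) (h.mult hb he hJ hh)
    (by rw [zero_smul, add_zero]; exact hh)
  have h4 := (skewPart e D γ).smul_mem (2 : ℂ) h3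
  rw [hc] at h4
  obtain ⟨m, hm⟩ : ∃ m, m = LinearMap.toMatrix e e h' := ⟨_, rfl⟩
  rw [← hm] at h4
  have hmm : m * m = m := by
    rw [hm, ← LinearMap.toMatrix_mul, hid]
  have h6 : (2 : ℂ) • (m - ((1 : ℂ) / 2) • (1 : Matrix _ _ ℂ)) = (2 : ℂ) • m - 1 := by
    rw [smul_sub, smul_smul]
    norm_num
  rw [h6] at h4
  refine ⟨_, h4, ?_, fun N hN _ hs => ?_⟩
  · rw [sub_mul, mul_sub, smul_mul_smul_comm, hmm, mul_one, one_mul]
    module
  · obtain ⟨S, hS, hSm⟩ := exists_endo b hb hJ N (mem_RQ.1 hN)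
    obtain ⟨h7, h8⟩ := trace_tangent hJ hSm hs
    have h9 := htr S hS _ (endExt_toLin hb he hSm)
    have h10 : LinearMap.trace ℂ _ (h' * Matrix.toLin e e (cq N)) = (m * cq N).trace := by
      rw [LinearMap.trace_eq_matrix_trace ℂ e, LinearMap.toMatrix_mul, LinearMap.toMatrix_toLin, hm]
    have h11 : (cq N).trace = 0 := by
      have h12 : (cq N).trace = ((N.trace : ℚ) : ℂ) := by
        rw [Matrix.trace, Matrix.trace, Rat.cast_sum]
        refine Finset.sum_congr rfl fun i _ => ?_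
        rw [Matrix.diag_apply, Matrix.diag_apply, cq_apply]
      rw [h12, h7, Rat.cast_zero]
    rw [Matrix.sub_mul, Matrix.one_mul, Matrix.trace_sub, h11, sub_zero, Matrix.smul_mul,
      Matrix.trace_smul, ← h10, h9, ← h8, map_mul, map_ofNat, smul_eq_mul]

/-- The conjugates of `J` are in the skew part of `γ + ℂ`. -/
theorem GeoP.J_mem (h : GeoP L γ c P) (hb : ∀ w, w ∈ L ↔ ∀ l, ∃ n : ℤ, b.repr w l = n)
    (he : ∀ (l : Fin (2 * g)) (h : b l ∈ L), e l = 1 ⊗ₜ[ℤ] (⟨b l, h⟩ : L)) (hJ : D.J = rc (Jr b))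
    (h4 : altF (form4 (bil e D.Gc) P) ∈ extF ℂ (hodgeC L) 4 2) (σ : ℂ ≃+* ℂ) :
    D.J.map σ ∈ skewPart e D γ := by
  have : Module.Finite ℂ (ℂ ⊗[ℤ] L) := Module.Finite.of_basis e
  refine J_map_mem0 (P := matP e P)
    { br := fun X hX Y hY => skew_br h.lie hX hY
      skew := fun X hX => (mem_skewPart.1 hX).1
      endo := fun X hX N hN => h.comm_endo hb he hJ hX hN
      comm := fun Y hY => h.comm_RC hb he hJ hY
      P_mem := fun A => h.matP_mem hb he hJ A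
      P_id := fun A hA => h.matP_id hA
      P_br := fun X hX A => h.matP_skew hX A
      P_lie := fun X hX A => matP_br (fun E => ?_) A
      ss := fun W hW => h.ss hb he hJ W hW
      sen := h.senM hb he hJ } σ
  have hX' : LinearMap.toMatrix e e (Matrix.toLin e e X) ∈ D.lie := by
    rw [LinearMap.toMatrix_toLin]
    exact hX
  have h5 := lie_ext hb he hJ hX'
  exact comm_of_acts4 bil_nd (mult_of_at hb he hJ (h5 2 1)) (actsOn_of_at (i := 2) (h5 4 2) h4) E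

/-- An element of the skew part of `γ + ℂ` kills the Tate classes. -/
theorem GeoP.kills (h : GeoP L γ c P) (hb : ∀ w, w ∈ L ↔ ∀ l, ∃ n : ℤ, b.repr w l = n)
    (he : ∀ (l : Fin (2 * g)) (h : b l ∈ L), e l = 1 ⊗ₜ[ℤ] (⟨b l, h⟩ : L)) (hJ : D.J = rc (Jr b))
    {X : Matrix (Fin (2 * g)) (Fin (2 * g)) ℂ} (hX : X ∈ skewPart e D γ) {n i : ℕ}
    {θ : (Fin n → ℂ ⊗[ℤ] L) [⋀^Fin (2 * i)]→ₗ[ℂ] ℂ} (hθ : IsTate γ c n i θ) :
    DM (lift (Fin n) X) (coordL e n (2 * i) θ) = 0 := by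
  obtain ⟨hX1, s, hs⟩ := mem_skewPart.1 hX
  obtain ⟨Y, hY⟩ : ∃ Y, Y = Matrix.toLin e e X + s • (1 : Module.End ℂ (ℂ ⊗[ℤ] L)) := ⟨_, rfl⟩
  have hXY : Matrix.toLin e e X = Y + (-s) • (1 : Module.End ℂ (ℂ ⊗[ℤ] L)) := by
    rw [hY]
    module
  have hm := h.mult' (D := D) hb he hJ hs
  rw [LinearMap.toMatrix_toLin, hX1, ← hY] at hm
  rw [← hY] at hs
  have h6 : ∀ v : Fin (2 * i) → Fin n → ℂ ⊗[ℤ] L,
      ∑ a, θ (Function.update v a (fun m => Matrix.toLin e e X (v a m))) = 0 * θ v := by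
    intro v
    have h7 : ∑ a, θ (Function.update v a (fun m => Matrix.toLin e e X (v a m))) =
        ∑ a, (θ (Function.update v a (fun m => Y (v a m))) + (-s) * θ v) := by
      refine Finset.sum_congr rfl fun a _ => ?_
      have h8 : (fun m => Matrix.toLin e e X (v a m)) = (fun m => Y (v a m)) + (-s) • v a := by
        funext m
        rw [hXY]
        rfl
      rw [h8, θ.map_update_add, θ.map_update_smul, Function.update_eq_self, smul_eq_mul]
    rw [h7, Finset.sum_add_distrib, Finset.sum_const, Finset.card_univ, Fintype.card_fin,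
      nsmul_eq_mul, hθ Y hs v]
    by_cases h8 : c Y - 2 * s = 0
    · push_cast
      linear_combination (i : ℂ) * θ v * h8
    · have h9 : D.Gc = 0 := (smul_eq_zero.1 hm.symm).resolve_left h8
      have h10 : ∀ u : ℂ ⊗[ℤ] L, u = 0 := by
        intro u
        refine (bil_nd (e := e) (D := D)).1 u fun v => ?_
        rw [h9]
        unfold bil
        simp
      rcases Nat.eq_zero_or_pos i with hi | hi
      · subst hi
        simp
      · have h11 : θ v = 0 := by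
          refine θ.map_coord_zero (⟨0, by omega⟩ : Fin (2 * i)) ?_
          funext m
          exact h10 _
        rw [h11]
        ring
  have h12 := ((coordL_hasC e θ).der_iff (Matrix.toLin e e X) 0).1 h6
  rw [LinearMap.toMatrix_toLin, zero_smul] at h12
  exact h12

/-- **One class is enough**: if the form of an equivariant projection to `γ + ℂ` is a combination of
Hodge classes of degree two on `A ^ 4`, then all the Tate classes on all the powers of `A` are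
combinations of Hodge classes. -/
theorem one_class {B : V →ₗ[ℝ] V →ₗ[ℝ] ℝ} (hA : IsAbelianVariety L) (hB : IsRiemannForm L B)
    {ψ : (ℂ ⊗[ℤ] L) →ₗ[ℂ] (ℂ ⊗[ℤ] L) →ₗ[ℂ] ℂ}
    (hψ : ∀ l l' : L, ψ (1 ⊗ₜ[ℤ] l) (1 ⊗ₜ[ℤ] l') = (B l l' : ℂ)) (h : GeoP L γ c P)
    (h4 : altF (form4 ψ P) ∈ extF ℂ (hodgeC L) 4 2) (n i : ℕ) :
    TateHolds (hodgeC L) γ c n i := by
  obtain ⟨g, b, hL, hb⟩ := exists_basis hA.lattice
  obtain ⟨D, hJ, hG⟩ := exists_pdata b hb hB
  obtain ⟨e, he⟩ := exists_latBasis ℂ hb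
  rw [← bil_eq hb he hG hψ] at h4
  intro θ hθ
  exact mem_ext_of_J hb he hJ fun σ => h.kills hb he hJ (h.J_mem hb he hJ h4 σ) hθ

end Pool.Agent.Lib.MP_021685_agQ
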