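import Pool.Agent.Lib.MP_021685_agQ.QH

/-!
# Every abelian variety: the Tate classes of degree two on `A ^ 4` are enough
-/

set_option autoImplicit false
set_option linter.unusedSectionVars false

namespace Pool.Agent.Lib.MP_021685_agQ

open Matrix Function Module MP_802513_ag MP_802513_agH MP_802513_agU MP_802513_agS MP_021685_agS
  MP_021685_agP
open scoped TensorProduct

variable {V : Type*} [AddCommGroup V] [Module ℂ V] {L : AddSubgroup V}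
  {γ : Submodule ℂ (Module.End ℂ (ℂ ⊗[ℤ] L))} {c : Module.End ℂ (ℂ ⊗[ℤ] L) → ℂ}

/-- An equivariant projection to `γ + ℂ`. -/
theorem exists_proj_one {H : Type*} [AddCommGroup H] [Module ℂ H]
    {γ : Submodule ℂ (Module.End ℂ H)} (hlie : ∀ X ∈ γ, ∀ Y ∈ γ, X * Y - Y * X ∈ γ)
    (hss : ∀ W : Submodule ℂ (Module.End ℂ H), (∀ X ∈ γ, ∀ A ∈ W, X * A - A * X ∈ W) →
      ∃ W' : Submodule ℂ (Module.End ℂ H), (∀ X ∈ γ, ∀ A ∈ W', X * A - A * X ∈ W') ∧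
        IsCompl W W') :
    ∃ P : Module.End ℂ H →ₗ[ℂ] Module.End ℂ H, (∀ E, ∃ a : ℂ, P E + a • (1 : Module.End ℂ H) ∈ γ) ∧
      (∀ E ∈ γ, P E = E) ∧ P 1 = 1 ∧ ∀ Y ∈ γ, ∀ E, P (Y * E - E * Y) = Y * P E - P E * Y := by
  obtain ⟨S, hS⟩ : ∃ S : Submodule ℂ (Module.End ℂ H), S = γ ⊔ Submodule.span ℂ {1} := ⟨_, rfl⟩
  have hmem : ∀ E : Module.End ℂ H, E ∈ S ↔ ∃ a : ℂ, E + a • (1 : Module.End ℂ H) ∈ γ := by
    intro E
    rw [hS, Submodule.mem_sup]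
    constructor
    · rintro ⟨Y, hY, z, hz, rfl⟩
      obtain ⟨a, rfl⟩ := Submodule.mem_span_singleton.1 hz
      refine ⟨-a, ?_⟩
      rw [neg_smul, add_neg_cancel_right]
      exact hY
    · rintro ⟨a, ha⟩
      refine ⟨_, ha, (-a) • 1, Submodule.smul_mem _ _ (Submodule.mem_span_singleton_self _), ?_⟩
      rw [neg_smul, add_neg_cancel_right]
  have hγS : ∀ E ∈ γ, E ∈ S := fun E hE => (hmem E).2 ⟨0, by rw [zero_smul, add_zero]; exact hE⟩
  have h1S : (1 : Module.End ℂ H) ∈ S := (hmem 1).2 ⟨-1, by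
    rw [neg_smul, one_smul, add_neg_cancel]
    exact γ.zero_mem⟩
  have hSbr : ∀ X ∈ γ, ∀ A ∈ S, X * A - A * X ∈ S := by
    intro X hX A hA
    obtain ⟨a, ha⟩ := (hmem A).1 hA
    have h1 := hlie X hX _ ha
    rw [mul_add, add_mul, mul_smul_one, smul_one_mul, add_sub_add_right_eq_sub] at h1
    exact hγS _ h1
  obtain ⟨W, hW, hgW⟩ := hss S hSbr
  let p : Module.End ℂ H →ₗ[ℂ] Module.End ℂ H :=
    S.subtype ∘ₗ (Submodule.projectionOnto S W hgW)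
  have hpg : ∀ E, p E ∈ S := fun E => (Submodule.projectionOnto S W hgW E).2
  have hp1 : ∀ E ∈ S, p E = E := by
    intro E hE
    have := Submodule.projectionOnto_apply_left hgW ⟨E, hE⟩
    exact congrArg Subtype.val this
  have hp0 : ∀ E ∈ W, p E = 0 := by
    intro E hE
    have := (Submodule.projectionOnto_apply_eq_zero_iff hgW (x := E)).2 hE
    exact congrArg Subtype.val this
  have hpW : ∀ E, E - p E ∈ W := by
    intro E
    refine (Submodule.projectionOnto_apply_eq_zero_iff hgW).1 ?_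
    refine Subtype.ext ?_
    show p (E - p E) = 0
    rw [map_sub, hp1 _ (hpg E), sub_self]
  refine ⟨p, fun E => (hmem _).1 (hpg E), fun E hE => hp1 E (hγS E hE), hp1 1 h1S, ?_⟩
  intro Y hY E
  have h1 : Y * E - E * Y = (Y * p E - p E * Y) + (Y * (E - p E) - (E - p E) * Y) := by
    noncomm_ring
  rw [h1, map_add, hp1 _ (hSbr Y hY _ (hpg E)), hp0 _ (hW Y hY _ (hpW E)), add_zero]

/-- **Degree two on `A ^ 4` is enough**, for every abelian variety. -/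
theorem degree_two {B : V →ₗ[ℝ] V →ₗ[ℝ] ℝ} (hA : IsAbelianVariety L) (hB : IsRiemannForm L B)
    (lie : ∀ X ∈ γ, ∀ Y ∈ γ, X * Y - Y * X ∈ γ)
    (tate : ∀ θ : (Fin 2 → ℂ ⊗[ℤ] L) [⋀^Fin (2 * 1)]→ₗ[ℂ] ℂ, θ ∈ extF ℂ (hodgeC L) 2 1 →
      IsTate γ c 2 1 θ)
    (falt : TateHolds (hodgeC L) γ c 2 1)
    (semisimple : ∀ W : Submodule ℂ (Module.End ℂ (ℂ ⊗[ℤ] L)),
      (∀ X ∈ γ, ∀ A ∈ W, X * A - A * X ∈ W) →
      ∃ W' : Submodule ℂ (Module.End ℂ (ℂ ⊗[ℤ] L)), (∀ X ∈ γ, ∀ A ∈ W', X * A - A * X ∈ W') ∧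
        IsCompl W W')
    (sen : ∀ τ : ℂ ≃+* ℂ, ∃ h ∈ γ, h * h = h ∧ c h = 1 ∧ ∀ T ∈ EndAlg L,
      ∀ T' : Module.End ℂ (ℂ ⊗[ℤ] L), EndExt T T' →
        LinearMap.trace ℂ _ (h * T') = τ (LinearMap.trace ℂ V T))
    (h4 : TateHolds (hodgeC L) γ c 4 2) (n i : ℕ) : TateHolds (hodgeC L) γ c n i := by
  obtain ⟨g, b, hL, hb⟩ := exists_basis hA.lattice
  obtain ⟨D, hJ, hG⟩ := exists_pdata b hb hB
  obtain ⟨e, he⟩ := exists_latBasis ℂ hb
  obtain ⟨P, hP1, hP2, hP3, hP4⟩ := exists_proj_one lie semisimple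
  have h : GeoP L γ c P :=
    { lie := lie
      tate := tate
      falt := falt
      semisimple := semisimple
      sen := sen
      P_mem := hP1
      P_id := hP2
      P_one := hP3
      P_br := hP4 }
  have hm : ∀ Y ∈ γ, ∀ u v, bil e D.Gc (Y u) v + bil e D.Gc u (Y v) = c Y * bil e D.Gc u v :=
    fun Y hY => mult_of_at hb he hJ fun θ hθ v => tate θ hθ Y hY v
  have h5 : altF (form4 (bil e D.Gc) P) ∈ extF ℂ (hodgeC L) 4 2 :=
    h4 _ ((isTate_altF (i := 2)).2 (tate_form4 bil_nd hm hP4))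
  intro θ hθ
  exact mem_ext_of_J hb he hJ fun σ => h.kills hb he hJ (h.J_mem hb he hJ h5 σ) hθ

end Pool.Agent.Lib.MP_021685_agQ
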