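import Pool.Agent.Lib.MP_021685_agQ.QI

/-!
# One class on `A ^ 4`: final forms
-/

set_option autoImplicit false
set_option linter.unusedSectionVars false

namespace Pool.Agent.Lib.MP_021685_agQ

open Matrix Function Module MP_802513_ag MP_802513_agH MP_802513_agU MP_802513_agS MP_021685_agS
  MP_021685_agP
open scoped TensorProduct

variable {V : Type*} [AddCommGroup V] [Module ℂ V] {L : AddSubgroup V}
  {γ : Submodule ℂ (Module.End ℂ (ℂ ⊗[ℤ] L))} {c : Module.End ℂ (ℂ ⊗[ℤ] L) → ℂ}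

/-- Larger families. -/
theorem extF_mono {C C' : ∀ n i : ℕ, Submodule ℚ ((Fin n → V) [⋀^Fin (2 * i)]→ₗ[ℝ] ℝ)} {n i : ℕ}
    (h : C n i ≤ C' n i) : extF ℂ (L := L) C n i ≤ extF ℂ (L := L) C' n i :=
  Submodule.span_mono fun _ ⟨η, hη, h1⟩ => ⟨η, h hη, h1⟩

/-- The action on a Künneth component. -/
theorem actsOn_of_class {ψ : (ℂ ⊗[ℤ] L) →ₗ[ℂ] (ℂ ⊗[ℤ] L) →ₗ[ℂ] ℂ}
    {P : Module.End ℂ (ℂ ⊗[ℤ] L) →ₗ[ℂ] Module.End ℂ (ℂ ⊗[ℤ] L)}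
    {C : ∀ n i : ℕ, Submodule ℚ ((Fin n → V) [⋀^Fin (2 * i)]→ₗ[ℝ] ℝ)}
    {θ : (Fin 4 → ℂ ⊗[ℤ] L) [⋀^Fin (2 * 2)]→ₗ[ℂ] ℂ} (hθ : θ ∈ extF ℂ C 4 2)
    (h : IsClassOf ψ P θ) {X : Module.End ℂ (ℂ ⊗[ℤ] L)} {a : ℂ} (hX : ActsAt C X a 4 2) :
    ActsOn X a 4 (form4 ψ P) := by
  intro u
  have h1 := hX θ hθ (fun r => Pi.single r (u r))
  have h2 : ∀ w : Fin 4 → ℂ ⊗[ℤ] L, θ (fun r => Pi.single r (w r)) = form4 ψ P w := h
  rw [h2] at h1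
  have h3 : ∑ j, form4 ψ P (Function.update u j (X (u j))) =
      ∑ s : Fin (2 * 2), θ (Function.update (fun r => Pi.single r (u r)) s
        (fun m => X ((Pi.single s (u s) : Fin 4 → ℂ ⊗[ℤ] L) m))) := by
    refine Finset.sum_congr rfl fun j _ => ?_
    rw [← h2]
    congr 1
    funext r m
    by_cases hr : r = j
    · subst hr
      rw [Function.update_self, Function.update_self]
      by_cases hm : m = r
      · subst hm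
        simp
      · rw [Pi.single_eq_of_ne hm]
        simp [Pi.single_eq_of_ne hm]
    · rw [Function.update_of_ne hr, Function.update_of_ne hr]
  rw [h3]
  refine h1.trans ?_
  norm_num

/-- The class of the projection, from its Künneth component. -/
theorem J_mem_of_class {g : ℕ} {b : Basis (Fin (2 * g)) ℝ V}
    {e : Basis (Fin (2 * g)) ℂ (ℂ ⊗[ℤ] L)} {D : PData (Fin (2 * g))}
    (hb : ∀ w, w ∈ L ↔ ∀ l, ∃ n : ℤ, b.repr w l = n)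
    (he : ∀ (l : Fin (2 * g)) (h : b l ∈ L), e l = 1 ⊗ₜ[ℤ] (⟨b l, h⟩ : L)) (hJ : D.J = rc (Jr b))
    {P : Module.End ℂ (ℂ ⊗[ℤ] L) →ₗ[ℂ] Module.End ℂ (ℂ ⊗[ℤ] L)} (h : GeoP L γ c P)
    {θ : (Fin 4 → ℂ ⊗[ℤ] L) [⋀^Fin (2 * 2)]→ₗ[ℂ] ℂ} (hθ : θ ∈ extF ℂ (hodgeC L) 4 2)
    (h4 : IsClassOf (bil e D.Gc) P θ) (σ : ℂ ≃+* ℂ) : D.J.map σ ∈ skewPart e D γ := by
  have : Module.Finite ℂ (ℂ ⊗[ℤ] L) := Module.Finite.of_basis e
  refine J_map_mem0 (P := matP e P)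
    { br := fun X hX Y hY => skew_br h.lie hX hY
      skew := fun X hX => (mem_skewPart.1 hX).1
      endo := fun X hX N hN => h.comm_endo hb he hJ hX hN
      comm := fun Y hY => h.comm_RC hb he hJ hY
      P_mem := fun A => h.matP_mem hb he hJ A
      P_id := fun A hA => h.matP_id hA
      P_br := fun X hX A => h.matP_skew hX A
      P_lie := fun X hX A => matP_br (fun E => ?_) A
      ss := fun W hW => h.ss hb he hJ W hW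
      sen := h.senM hb he hJ } σ
  have hX' : LinearMap.toMatrix e e (Matrix.toLin e e X) ∈ D.lie := by
    rw [LinearMap.toMatrix_toLin]
    exact hX
  have h5 := lie_ext hb he hJ hX'
  exact comm_of_acts4 bil_nd (mult_of_at hb he hJ (h5 2 1)) (actsOn_of_class hθ h4 (h5 4 2)) E

theorem IsGaloisLie.geoP (h : IsGaloisLie L γ c)
    {P : Module.End ℂ (ℂ ⊗[ℤ] L) →ₗ[ℂ] Module.End ℂ (ℂ ⊗[ℤ] L)} (hP : IsProjTo γ P) :
    GeoP L γ c P where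
  lie := h.lie
  tate := h.divisor
  falt := h.tate
  semisimple := h.semisimple
  sen := h.sen
  P_mem := hP.mem
  P_id := hP.id
  P_one := hP.one
  P_br := hP.br

/-- There is an equivariant projection. -/
theorem IsGaloisLie.exists_proj (h : IsGaloisLie L γ c) :
    ∃ P : Module.End ℂ (ℂ ⊗[ℤ] L) →ₗ[ℂ] Module.End ℂ (ℂ ⊗[ℤ] L), IsProjTo γ P := by
  obtain ⟨P, h1, h2, h3, h4⟩ := exists_proj_one h.lie h.semisimple
  exact ⟨P, h1, h2, h3, h4⟩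

/-- **One class.** If the class of an equivariant projection `End H → γ + ℂ` is a combination of
Hodge classes of degree two on `A ^ 4`, then every Tate class on every power of `A` is a combination of
Hodge classes. -/
theorem mt_of_class {B : V →ₗ[ℝ] V →ₗ[ℝ] ℝ} (hA : IsAbelianVariety L) (hB : IsRiemannForm L B)
    {ψ : (ℂ ⊗[ℤ] L) →ₗ[ℂ] (ℂ ⊗[ℤ] L) →ₗ[ℂ] ℂ}
    (hψ : ∀ l l' : L, ψ (1 ⊗ₜ[ℤ] l) (1 ⊗ₜ[ℤ] l') = (B l l' : ℂ)) (hγ : IsGaloisLie L γ c)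
    {P : Module.End ℂ (ℂ ⊗[ℤ] L) →ₗ[ℂ] Module.End ℂ (ℂ ⊗[ℤ] L)} (hP : IsProjTo γ P)
    {θ : (Fin 4 → ℂ ⊗[ℤ] L) [⋀^Fin (2 * 2)]→ₗ[ℂ] ℂ} (hθ : θ ∈ extF ℂ (hodgeC L) 4 2)
    (h4 : IsClassOf ψ P θ) (n i : ℕ) : TateHolds (hodgeC L) γ c n i := by
  obtain ⟨g, b, hL, hb⟩ := exists_basis hA.lattice
  obtain ⟨D, hJ, hG⟩ := exists_pdata b hb hB
  obtain ⟨e, he⟩ := exists_latBasis ℂ hb
  rw [← bil_eq hb he hG hψ] at h4
  have h := hγ.geoP hP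
  intro θ' hθ'
  exact mem_ext_of_J hb he hJ fun σ => h.kills hb he hJ (J_mem_of_class hb he hJ h hθ h4 σ) hθ'

/-- The class of an equivariant projection is a Tate class: `altF (form4 ψ P)`. -/
theorem exists_class {B : V →ₗ[ℝ] V →ₗ[ℝ] ℝ} (hA : IsAbelianVariety L) (hB : IsRiemannForm L B)
    {ψ : (ℂ ⊗[ℤ] L) →ₗ[ℂ] (ℂ ⊗[ℤ] L) →ₗ[ℂ] ℂ}
    (hψ : ∀ l l' : L, ψ (1 ⊗ₜ[ℤ] l) (1 ⊗ₜ[ℤ] l') = (B l l' : ℂ)) (hγ : IsGaloisLie L γ c)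
    {P : Module.End ℂ (ℂ ⊗[ℤ] L) →ₗ[ℂ] Module.End ℂ (ℂ ⊗[ℤ] L)} (hP : IsProjTo γ P) :
    ∃ θ : (Fin 4 → ℂ ⊗[ℤ] L) [⋀^Fin (2 * 2)]→ₗ[ℂ] ℂ, IsClassOf ψ P θ ∧ IsTate γ c 4 2 θ := by
  obtain ⟨g, b, hL, hb⟩ := exists_basis hA.lattice
  obtain ⟨D, hJ, hG⟩ := exists_pdata b hb hB
  obtain ⟨e, he⟩ := exists_latBasis ℂ hb
  have h1 := bil_eq hb he hG hψ
  have hm : ∀ Y ∈ γ, ∀ u v, bil e D.Gc (Y u) v + bil e D.Gc u (Y v) = c Y * bil e D.Gc u v :=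
    fun Y hY => mult_of_at hb he hJ fun θ hθ v => hγ.divisor θ hθ Y hY v
  rw [← h1]
  exact ⟨altF (form4 (bil e D.Gc) P), fun u => altF_single (form4 (bil e D.Gc) P) u,
    (isTate_altF (i := 2)).2 (tate_form4 bil_nd hm hP.br)⟩

/-- **Degree two on `A ^ 4`.** -/
theorem mt_of_degree_two {B : V →ₗ[ℝ] V →ₗ[ℝ] ℝ} (hA : IsAbelianVariety L)
    (hB : IsRiemannForm L B) (hγ : IsGaloisLie L γ c) (h4 : TateHolds (hodgeC L) γ c 4 2) (n i : ℕ) :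
    TateHolds (hodgeC L) γ c n i :=
  degree_two hA hB hγ.lie hγ.divisor hγ.tate hγ.semisimple hγ.sen h4 n i

end Pool.Agent.Lib.MP_021685_agQ
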