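import Pool.Agent.Lib.MP_021685_agQ.QK

/-!
# Two classes are enough: the Tate conjecture for all the powers of an abelian variety
-/

set_option autoImplicit false
set_option linter.unusedSectionVars false

namespace Pool.Agent.Lib.MP_021685_agQ

open Matrix Function Module MP_802513_ag MP_802513_agH MP_802513_agU MP_802513_agS MP_021685_agS
  MP_021685_agP
open scoped TensorProduct

variable {V : Type*} [AddCommGroup V] [Module ℂ V] {L : AddSubgroup V}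

/-- The Mumford-Tate conjecture and one Tate class of degree two on `A ^ 4`. -/
theorem mt_iff_class (hA : IsAbelianVariety L) {B : V →ₗ[ℝ] V →ₗ[ℝ] ℝ} (hB : IsRiemannForm L B)
    {γ : Submodule ℂ (Module.End ℂ (ℂ ⊗[ℤ] L))} {c : Module.End ℂ (ℂ ⊗[ℤ] L) → ℂ}
    {ψ : (ℂ ⊗[ℤ] L) →ₗ[ℂ] (ℂ ⊗[ℤ] L) →ₗ[ℂ] ℂ}
    (hψ : ∀ l l' : L, ψ (1 ⊗ₜ[ℤ] l) (1 ⊗ₜ[ℤ] l') = (B l l' : ℂ)) (hγ : IsGaloisLie L γ c)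
    {P : Module.End ℂ (ℂ ⊗[ℤ] L) →ₗ[ℂ] Module.End ℂ (ℂ ⊗[ℤ] L)} (hP : IsProjTo γ P) :
    (∃ θ ∈ extF ℂ (hodgeC L) 4 2, IsClassOf ψ P θ) ↔ ∀ n i, TateHolds (hodgeC L) γ c n i := by
  constructor
  · rintro ⟨θ, hθ, h4⟩ n i
    exact mt_of_class hA hB hψ hγ hP hθ h4 n i
  · intro h
    obtain ⟨θ, h4, hθ⟩ := exists_class hA hB hψ hγ hP
    exact ⟨θ, h 4 2 θ hθ, h4⟩

/-- **Two classes.** -/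
theorem two_classes (hA : IsAbelianVariety L) {B : V →ₗ[ℝ] V →ₗ[ℝ] ℝ} (hB : IsRiemannForm L B) :
    ∃ Γ : (Fin 2 → V) [⋀^Fin (2 * finrank ℂ V)]→ₗ[ℝ] ℝ,
      IsHodgeClass (powLattice L 2) (finrank ℂ V) Γ ∧
      (finrank ℝ (symCentre L B) ≤ 3 → ∀ T : Submodule ℚ (V [⋀^Fin (finrank ℂ V)]→ₗ[ℝ] ℝ),
        IsHodgeSub L T → ContainsHolomorphic T → Γ ∈ crossSpan (2 * finrank ℂ V) T) ∧
      ∀ {C : ∀ n i : ℕ, Submodule ℚ ((Fin n → V) [⋀^Fin (2 * i)]→ₗ[ℝ] ℝ)}, IsStableFamily L C →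
        (∀ i ≤ 1, ∀ ω : (Fin 2 → V) [⋀^Fin (2 * i)]→ₗ[ℝ] ℝ,
          IsHodgeClass (powLattice L 2) i ω → ω ∈ C 2 i) → Γ ∈ C 2 (finrank ℂ V) →
        (∀ {n i : ℕ} {η : (Fin n → V) [⋀^Fin (2 * i)]→ₗ[ℝ] ℝ}, IsHodgeClass (powLattice L n) i η →
          (∀ S : Module.End ℂ V, IsDegenerate L B S → Kills S η) → η ∈ C n i) ∧
        ∀ {γ : Submodule ℂ (Module.End ℂ (ℂ ⊗[ℤ] L))} {c : Module.End ℂ (ℂ ⊗[ℤ] L) → ℂ}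
          {ψ : (ℂ ⊗[ℤ] L) →ₗ[ℂ] (ℂ ⊗[ℤ] L) →ₗ[ℂ] ℂ}
          {P : Module.End ℂ (ℂ ⊗[ℤ] L) →ₗ[ℂ] Module.End ℂ (ℂ ⊗[ℤ] L)},
          (∀ l l' : L, ψ (1 ⊗ₜ[ℤ] l) (1 ⊗ₜ[ℤ] l') = (B l l' : ℂ)) → IsGaloisLie L γ c →
          IsProjTo γ P → (∃ θ ∈ extF ℂ C 4 2, IsClassOf ψ P θ) →
          ∀ {n i : ℕ} {θ : (Fin n → ℂ ⊗[ℤ] L) [⋀^Fin (2 * i)]→ₗ[ℂ] ℂ}, IsTate γ c n i θ →
            KilledByDeg L B θ → θ ∈ extF ℂ C n i := by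
  obtain ⟨Γ, h1, h2, h3⟩ := mainOne2 hA hB
  refine ⟨Γ, h1, h2, fun {C} hC hd hΓ => ⟨fun hη => (h3 hC hd hΓ hη).2, ?_⟩⟩
  rintro γ c ψ P hψ hγ hP ⟨θ₀, hθ₀, h4⟩ n i θ hθ hk
  have h5 : θ₀ ∈ extF ℂ (hodgeC L) 4 2 := extF_mono (C' := hodgeC L) (fun _ hη => hC.isHodge hη) hθ₀
  exact ext_killed hA hB (fun η hη hS => (h3 hC hd hΓ hη).2 hS)
    (mt_of_class hA hB hψ hγ hP h5 h4 n i θ hθ) hk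

/-- If the family contains all the Hodge classes, one Tate class of degree two on `A ^ 4` is enough. -/
theorem tate_of_class (hA : IsAbelianVariety L) {B : V →ₗ[ℝ] V →ₗ[ℝ] ℝ} (hB : IsRiemannForm L B)
    {γ : Submodule ℂ (Module.End ℂ (ℂ ⊗[ℤ] L))} {c : Module.End ℂ (ℂ ⊗[ℤ] L) → ℂ}
    {ψ : (ℂ ⊗[ℤ] L) →ₗ[ℂ] (ℂ ⊗[ℤ] L) →ₗ[ℂ] ℂ}
    (hψ : ∀ l l' : L, ψ (1 ⊗ₜ[ℤ] l) (1 ⊗ₜ[ℤ] l') = (B l l' : ℂ)) (hγ : IsGaloisLie L γ c)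
    {P : Module.End ℂ (ℂ ⊗[ℤ] L) →ₗ[ℂ] Module.End ℂ (ℂ ⊗[ℤ] L)} (hP : IsProjTo γ P)
    {C : ∀ n i : ℕ, Submodule ℚ ((Fin n → V) [⋀^Fin (2 * i)]→ₗ[ℝ] ℝ)} (hC : IsStableFamily L C)
    (h : ∃ θ ∈ extF ℂ C 4 2, IsClassOf ψ P θ)
    (hall : ∀ (n i : ℕ) (η : (Fin n → V) [⋀^Fin (2 * i)]→ₗ[ℝ] ℝ), IsHodgeClass (powLattice L n) i η →
      η ∈ C n i) (n i : ℕ) : TateHolds C γ c n i := by
  obtain ⟨θ₀, hθ₀, h4⟩ := h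
  intro θ hθ
  exact extF_mono (C := hodgeC L) (fun η hη => hall n i η hη)
    (mt_of_class hA hB hψ hγ hP (extF_mono (C' := hodgeC L) (fun _ hη => hC.isHodge hη) hθ₀) h4 n i θ hθ)

end Pool.Agent.Lib.MP_021685_agQ
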