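import Pool.Agent.Lib.MP_021685_agQ.Dg
import Pool.Agent.Lib.MP_021685_agQ.QL

/-!
# The Mumford-Tate conjecture and one Hodge class
-/

set_option autoImplicit false
set_option linter.unusedSectionVars false

namespace Pool.Agent.Lib.MP_021685_agQ

open Matrix Function Module MP_802513_ag MP_802513_agH MP_802513_agU MP_802513_agS MP_021685_agS
  MP_021685_agP
open scoped TensorProduct

variable {V : Type*} [AddCommGroup V] [Module ℂ V] {L : AddSubgroup V}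

/-- Without degenerate elements every form is killed by them. -/
theorem killedByDeg_of_symm {B : V →ₗ[ℝ] V →ₗ[ℝ] ℝ} (hB : IsRiemannForm L B)
    (h : CentreSymmetric L B) {n i : ℕ} (θ : CForm L n i) : KilledByDeg L B θ := by
  intro T T' hT hTT v
  have h0 : T = 0 := degenerate_zero hB h hT
  subst h0
  have h1 : ∀ x : L, T' ((1 : ℂ) ⊗ₜ[ℤ] x) = 0 := by
    intro x
    have h2 := hTT 1 x 0 (by simp)
    rw [one_smul, TensorProduct.tmul_zero] at h2
    exact h2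
  have h3 : T' = 0 := by
    refine TensorProduct.AlgebraTensorModule.ext fun z x => ?_
    have h4 : (z ⊗ₜ[ℤ] x : ℂ ⊗[ℤ] L) = z • ((1 : ℂ) ⊗ₜ[ℤ] x) := by
      rw [TensorProduct.smul_tmul', smul_eq_mul, mul_one]
    rw [h4, map_smul, h1, smul_zero]
    rfl
  subst h3
  refine Finset.sum_eq_zero fun j _ => ?_
  exact θ.map_update_zero v j

/-- **Two classes.** -/
theorem mainTwo (hA : IsAbelianVariety L) {B : V →ₗ[ℝ] V →ₗ[ℝ] ℝ} (hB : IsRiemannForm L B)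
    {ψ : (ℂ ⊗[ℤ] L) →ₗ[ℂ] (ℂ ⊗[ℤ] L) →ₗ[ℂ] ℂ} (hψ : IsExtForm L B ψ) {g : ℕ}
    (hg : g = finrank ℂ V) :
    ∃ Γ : RForm V 2 g, IsHodgeClass (powLattice L 2) g Γ ∧
      ∀ (γ : HSpace L) (c : HEnd L → ℂ), MP_021685_agQ.IsGaloisLie L γ c →
        (∃ P : HMap L, IsProjTo γ P) ∧ ∀ P : HMap L, IsProjTo γ P → ∃ θ : CForm L 4 2,
          IsClassOf ψ P θ ∧ IsTate γ c 4 2 θ ∧
          (IsComb (hodgeC L) θ ↔ AllTate (hodgeC L) γ c) ∧
          (IsComb (hodgeC L) θ → ∀ C : Family V, IsStableFamily L C → ContainsDivisors L C →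
            InFamily C Γ → AllTateKilled B C γ c ∧ (CentreSymmetric L B → AllTate C γ c)) := by
  subst hg
  obtain ⟨Γ, h1, -, h3⟩ := mainOne2 hA hB
  refine ⟨Γ, h1, fun γ c hγ => ⟨hγ.exists_proj, fun P hP => ?_⟩⟩
  obtain ⟨θ, h4, hθ⟩ := exists_class hA hB hψ hγ hP
  have h5 : IsComb (hodgeC L) θ → AllTate (hodgeC L) γ c := fun h n i =>
    mt_of_class hA hB hψ hγ hP h h4 n i
  refine ⟨θ, h4, hθ, ⟨h5, fun h => h 4 2 θ hθ⟩, fun h C hC hd hΓ => ?_⟩
  have h6 : AllTateKilled B C γ c := fun n i θ' hθ' hk =>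
    ext_killed hA hB (fun η hη hS => (h3 hC hd hΓ hη).2 hS) (h5 h n i θ' hθ') hk
  exact ⟨h6, fun hs n i θ' hθ' => h6 n i θ' hθ' (killedByDeg_of_symm hB hs θ')⟩

end Pool.Agent.Lib.MP_021685_agQ
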