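import Pool.Agent.Lib.MP_021685_agQ.QM
import Pool.Agent.Lib.MP_021685_agQ.QO

/-!
# One Tate class decides
-/

set_option autoImplicit false
set_option linter.unusedSectionVars false

namespace Pool.Agent.Lib.MP_021685_agQ

open Matrix Function Module MP_802513_ag MP_802513_agH MP_802513_agU MP_802513_agS MP_021685_agS
  MP_021685_agP
open scoped TensorProduct

variable {V : Type*} [AddCommGroup V] [Module ℂ V] {L : AddSubgroup V}

/-- **One Tate class decides.** -/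
theorem mainTate (hA : IsAbelianVariety L) {B : V →ₗ[ℝ] V →ₗ[ℝ] ℝ} (hB : IsRiemannForm L B)
    {ψ : (ℂ ⊗[ℤ] L) →ₗ[ℂ] (ℂ ⊗[ℤ] L) →ₗ[ℂ] ℂ} (hψ : IsExtForm L B ψ) {g m : ℕ}
    (hg : g = finrank ℂ V) (hm : m = max g (Nat.sqrt (g ^ g / 4 ^ (g - 1)))) :
    ∃ Γ : RForm V 2 g, IsHodgeClass (powLattice L 2) g Γ ∧
      ∀ (γ : HSpace L) (c : HEnd L → ℂ),
        (∃ θ : CForm L (2 * m) m, IsTate γ c (2 * m) m θ ∧ ∀ C : Family V, IsStableFamily L C →
          ContainsDivisors L C → IsPinkLie C γ c → IsComb C θ → AllTate C γ c) ∧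
        (MP_021685_agQ.IsGaloisLie L γ c → (∃ P : HMap L, IsProjTo γ P) ∧
          ∀ P : HMap L, IsProjTo γ P → ∃ θ : CForm L 4 2, IsClassOf ψ P θ ∧ IsTate γ c 4 2 θ ∧
            (IsComb (hodgeC L) θ ↔ AllTate (hodgeC L) γ c) ∧
            (IsComb (hodgeC L) θ → ∀ C : Family V, IsStableFamily L C → ContainsDivisors L C →
              InFamily C Γ → AllTateKilled B C γ c ∧ (CentreSymmetric L B → AllTate C γ c))) := by
  obtain ⟨Γ, h1, h2⟩ := mainTwo hA hB hψ hg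
  subst hg
  refine ⟨Γ, h1, fun γ c => ⟨?_, h2 γ c⟩⟩
  obtain ⟨θ, h3, h4⟩ := tate_one2 hA γ c hm
  exact ⟨θ, h3, fun C hC hd hγ h => h4 hC hd hγ h⟩

end Pool.Agent.Lib.MP_021685_agQ
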